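import Mathlib

/-!
# A permutation with many prescribed pairs, from a substochastic matrix
-/

open Finset

namespace Pool.Agent.Lib_helper37.VL

/-- A doubly substochastic matrix supported on the pairs `Cl` has total mass at most the largest
number of pairs of `Cl` on the graph of a permutation. -/
lemma mass_le_of_perm {n : ℕ} (y : Fin n → Fin n → ℝ) (h0 : ∀ u v, 0 ≤ y u v)
    (hr : ∀ u, ∑ v, y u v ≤ 1) (hc : ∀ v, ∑ u, y u v ≤ 1) (Cl : Fin n → Fin n → Prop)
    [∀ u v, Decidable (Cl u v)] (hcl : ∀ u v, y u v ≠ 0 → Cl u v) (N : ℝ)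
    (hN : ∀ σ : Equiv.Perm (Fin n), (#{u | Cl u (σ u)} : ℝ) ≤ N) :
    ∑ u, ∑ v, y u v ≤ N := by
  obtain ⟨r, hrd⟩ : ∃ r : Fin n → ℝ, r = fun u => 1 - ∑ v, y u v := ⟨_, rfl⟩
  obtain ⟨d, hdd⟩ : ∃ d : Fin n → ℝ, d = fun v => 1 - ∑ u, y u v := ⟨_, rfl⟩
  have hr0 : ∀ u, 0 ≤ r u := fun u => by
    rw [hrd]
    have := hr u
    show 0 ≤ 1 - ∑ v, y u v
    linarith
  have hd0 : ∀ v, 0 ≤ d v := fun v => by
    rw [hdd]
    have := hc v
    show 0 ≤ 1 - ∑ u, y u v
    linarith
  obtain ⟨R, hR⟩ : ∃ R : ℝ, R = ∑ u, r u := ⟨_, rfl⟩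
  have hR2 : R = ∑ v, d v := by
    rw [hR, hrd, hdd, Finset.sum_sub_distrib, Finset.sum_sub_distrib]
    congr 1
    exact Finset.sum_comm
  have hR0 : 0 ≤ R := by
    rw [hR]
    exact Finset.sum_nonneg fun u _ => hr0 u
  obtain ⟨M, hM⟩ : ∃ M : Matrix (Fin n) (Fin n) ℝ, M = fun u v => y u v + r u * d v / R :=
    ⟨_, rfl⟩
  have hMmem : M ∈ doublyStochastic ℝ (Fin n) := by
    rw [mem_doublyStochastic_iff_sum]
    refine ⟨?_, ?_, ?_⟩
    · intro u v
      rw [hM]
      have := h0 u v
      have := hr0 u
      have := hd0 v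
      positivity
    · intro u
      rw [hM]
      show ∑ v, (y u v + r u * d v / R) = 1
      rw [Finset.sum_add_distrib, ← Finset.sum_div, ← Finset.mul_sum, ← hR2]
      rcases eq_or_lt_of_le hR0 with h | h
      · have h1 : r u = 0 := by
          rw [hR] at h
          exact (Finset.sum_eq_zero_iff_of_nonneg fun u _ => hr0 u).mp h.symm u
            (Finset.mem_univ _)
        have h2 : 1 - ∑ v, y u v = 0 := by
          rw [← h1, hrd]
        rw [h1]
        linarith [show (0:ℝ) * R / R = 0 by simp]
      · rw [mul_div_assoc, div_self h.ne', mul_one, hrd]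
        ring
    · intro v
      rw [hM]
      show ∑ u, (y u v + r u * d v / R) = 1
      rw [Finset.sum_add_distrib, ← Finset.sum_div, ← Finset.sum_mul, ← hR]
      rcases eq_or_lt_of_le hR0 with h | h
      · have h1 : d v = 0 := by
          rw [hR2] at h
          exact (Finset.sum_eq_zero_iff_of_nonneg fun u _ => hd0 u).mp h.symm v
            (Finset.mem_univ _)
        have h2 : 1 - ∑ u, y u v = 0 := by
          rw [← h1, hdd]
        rw [h1]
        linarith [show R * (0:ℝ) / R = 0 by simp]
      · rw [mul_comm R, mul_div_assoc, div_self h.ne', mul_one, hdd]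
        ring
  obtain ⟨w, hw0, hw1, hw⟩ := exists_eq_sum_perm_of_mem_doublyStochastic hMmem
  have hMcl : ∑ u, ∑ v, (if Cl u v then M u v else 0) ≤ N := by
    have e1 : ∀ u v, M u v = ∑ σ : Equiv.Perm (Fin n), w σ * (if σ u = v then 1 else 0) := by
      intro u v
      rw [← hw, Matrix.sum_apply]
      apply Finset.sum_congr rfl
      intro σ _
      rw [Matrix.smul_apply, smul_eq_mul, Equiv.Perm.permMatrix, PEquiv.toMatrix_apply]
      simp [eq_comm]
    calc ∑ u, ∑ v, (if Cl u v then M u v else 0)
        = ∑ u, ∑ v, ∑ σ : Equiv.Perm (Fin n), w σ * (if σ u = v ∧ Cl u v then 1 else 0) := by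
          apply Finset.sum_congr rfl
          intro u _
          apply Finset.sum_congr rfl
          intro v _
          by_cases h : Cl u v
          · rw [if_pos h, e1]
            simp [h]
          · rw [if_neg h]
            simp [h]
      _ = ∑ σ : Equiv.Perm (Fin n), w σ * ∑ u, ∑ v, (if σ u = v ∧ Cl u v then 1 else 0) := by
          calc _ = ∑ u, ∑ σ : Equiv.Perm (Fin n), ∑ v,
                w σ * (if σ u = v ∧ Cl u v then (1:ℝ) else 0) :=
                Finset.sum_congr rfl fun u _ => Finset.sum_comm
            _ = ∑ σ : Equiv.Perm (Fin n), ∑ u, ∑ v,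
                w σ * (if σ u = v ∧ Cl u v then (1:ℝ) else 0) := Finset.sum_comm
            _ = _ := by
                apply Finset.sum_congr rfl
                intro σ _
                rw [Finset.mul_sum]
                apply Finset.sum_congr rfl
                intro u _
                rw [Finset.mul_sum]
      _ ≤ ∑ σ : Equiv.Perm (Fin n), w σ * N := by
          apply Finset.sum_le_sum
          intro σ _
          apply mul_le_mul_of_nonneg_left _ (hw0 σ)
          have e2 : ∑ u, ∑ v, (if σ u = v ∧ Cl u v then (1:ℝ) else 0)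
              = (#{u | Cl u (σ u)} : ℝ) := by
            rw [Finset.card_filter]
            push_cast
            apply Finset.sum_congr rfl
            intro u _
            rw [Finset.sum_eq_single (σ u)]
            · simp
            · intro v _ hv
              rw [if_neg]
              rintro ⟨h1, _⟩
              exact hv h1.symm
            · intro h
              exact absurd (Finset.mem_univ _) h
          rw [e2]
          exact hN σ
      _ = N := by rw [← Finset.sum_mul, hw1, one_mul]
  refine le_trans ?_ hMcl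
  apply Finset.sum_le_sum
  intro u _
  apply Finset.sum_le_sum
  intro v _
  by_cases h : y u v = 0
  · rw [h]
    split_ifs
    · rw [hM]
      have := h0 u v
      have := hr0 u
      have := hd0 v
      positivity
    · exact le_rfl
  · rw [if_pos (hcl u v h), hM]
    have := hr0 u
    have := hd0 v
    have h3 : 0 ≤ r u * d v / R := by positivity
    show y u v ≤ y u v + r u * d v / R
    linarith

end Pool.Agent.Lib_helper37.VL
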