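import Mathlib
import Pool.Agent.Lib_helper48.Brouwer

/-!
# A fixed point for the lower bound on van Lint's function

For set systems `P, Q : Fin n → Finset B` we produce, with the fixed point theorem of Brouwer, an
almost perfect fractional matching `x` between the indices of `P` and those of `Q`, and weights
`ℓ` on `B` attached to it, such that the matching uses only pairs `u, v` of small total
weight `∑ ℓ b` over the common elements.
-/

open Finset

namespace Pool.Agent.Lib_helper37.VL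

/-- truncation to `[0,1]` -/
noncomputable def cl (t : ℝ) : ℝ := max 0 (min 1 t)

lemma cl_nonneg (t : ℝ) : 0 ≤ cl t := le_max_left _ _

lemma cl_le_one (t : ℝ) : cl t ≤ 1 := max_le zero_le_one (min_le_left _ _)

lemma continuous_cl : Continuous cl := by
  unfold cl
  fun_prop

lemma cl_nonpos {t : ℝ} (h : t ≤ 0) : cl t = 0 := by
  unfold cl
  rw [min_eq_right (by linarith), max_eq_left h]

lemma cl_one_le {t : ℝ} (h : 1 ≤ t) : cl t = 1 := by
  unfold cl
  rw [min_eq_left h, max_eq_right zero_le_one]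

lemma cl_mid {t : ℝ} (h0 : 0 ≤ t) (h1 : t ≤ 1) : cl t = t := by
  unfold cl
  rw [min_eq_right h1, max_eq_right h0]

lemma fix_gt {s X : ℝ} (h1 : s ≤ 1) (h : cl (s + 1 - X) = s) (hX : 1 < X) :
    s = 0 := by
  rcases le_or_gt (s + 1 - X) 0 with h2 | h2
  · rw [cl_nonpos h2] at h
    exact h.symm
  · rw [cl_mid h2.le (by linarith)] at h
    linarith

lemma fix_lt {s X : ℝ} (h0 : 0 ≤ s) (h : cl (s + 1 - X) = s) (hX : X < 1) :
    s = 1 := by
  rcases le_or_gt 1 (s + 1 - X) with h2 | h2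
  · rw [cl_one_le h2] at h
    exact h.symm
  · rw [cl_mid (by linarith) h2.le] at h
    linarith

/-- the cut-off is at least `1 - t/τ₁` -/
lemma cut_ge {t τ₁ τ₂ : ℝ} (ht : 0 ≤ t) (h1 : 0 < τ₁) (h2 : τ₁ < τ₂) :
    1 - t / τ₁ ≤ cl ((τ₂ - t) / (τ₂ - τ₁)) := by
  rcases le_or_gt t τ₁ with h | h
  · rw [cl_one_le]
    · have := div_nonneg ht h1.le
      linarith
    · rw [le_div_iff₀ (by linarith)]
      linarith
  · have h3 : 1 < t / τ₁ := by
      rw [lt_div_iff₀ h1]
      linarith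
    have := cl_nonneg ((τ₂ - t) / (τ₂ - τ₁))
    linarith

lemma cut_zero {t τ₁ τ₂ : ℝ} (h2 : τ₁ < τ₂) (h : cl ((τ₂ - t) / (τ₂ - τ₁)) ≠ 0) :
    t ≤ τ₂ := by
  by_contra hc
  push Not at hc
  apply h
  apply cl_nonpos
  apply div_nonpos_of_nonpos_of_nonneg <;> linarith

section
variable {n : ℕ} {B : Type*} [DecidableEq B]

/-- total weight, cut off from below -/
noncomputable def wtot (θ : ℝ) (j : Fin n → ℝ) : ℝ := max (∑ v, cl (j v)) (θ * n)

/-- normalised weights -/
noncomputable def nu (θ : ℝ) (j : Fin n → ℝ) (v : Fin n) : ℝ := cl (j v) / wtot θ j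

/-- the exponents on `B` -/
noncomputable def ell (Q : Fin n → Finset B) (c ρ : ℝ) (Bg : Finset B) (ν : Fin n → ℝ)
    (b : B) : ℝ :=
  if b ∈ Bg then 0 else c / ((∑ v with b ∈ Q v, ν v) + ρ)

/-- the total exponent of a pair -/
noncomputable def sm (P Q : Fin n → Finset B) (ℓ : B → ℝ) (u v : Fin n) : ℝ :=
  ∑ b ∈ P u ∩ Q v, ℓ b

lemma wtot_pos {θ : ℝ} (hθ : 0 < θ) (hn : 0 < n) (j : Fin n → ℝ) : 0 < wtot θ j :=
  lt_of_lt_of_le (by positivity) (le_max_right _ _)

lemma nu_nonneg {θ : ℝ} (hθ : 0 < θ) (hn : 0 < n) (j : Fin n → ℝ) (v : Fin n) :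
    0 ≤ nu θ j v :=
  div_nonneg (cl_nonneg _) (wtot_pos hθ hn j).le

lemma nu_le {θ : ℝ} (hθ : 0 < θ) (hn : 0 < n) (j : Fin n → ℝ) (v : Fin n) :
    nu θ j v ≤ 1 / (θ * n) := by
  unfold nu
  have hn' : (0:ℝ) < n := by exact_mod_cast hn
  exact div_le_div₀ zero_le_one (cl_le_one _) (by positivity) (le_max_right _ _)

lemma sum_nu_le {θ : ℝ} (hθ : 0 < θ) (hn : 0 < n) (j : Fin n → ℝ) :
    ∑ v, nu θ j v ≤ 1 := by
  unfold nu
  rw [← Finset.sum_div, div_le_one (wtot_pos hθ hn j)]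
  exact le_max_left _ _

lemma ell_nonneg {Q : Fin n → Finset B} {c ρ : ℝ} (hc : 0 ≤ c) (hρ : 0 < ρ) {Bg : Finset B}
    {ν : Fin n → ℝ} (hν : ∀ v, 0 ≤ ν v) (b : B) : 0 ≤ ell Q c ρ Bg ν b := by
  unfold ell
  split_ifs
  · exact le_rfl
  · have : 0 ≤ ∑ v with b ∈ Q v, ν v := Finset.sum_nonneg fun v _ => hν v
    positivity

/-- the average exponent seen from `u` -/
lemma avg_le {P Q : Fin n → Finset B} {c ρ : ℝ} (hc : 0 ≤ c) (hρ : 0 < ρ) {Bg : Finset B}
    {ν : Fin n → ℝ} (hν : ∀ v, 0 ≤ ν v) (u : Fin n) :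
    ∑ v, ν v * sm P Q (ell Q c ρ Bg ν) u v ≤ c * #(P u) := by
  have h1 : ∑ v, ν v * sm P Q (ell Q c ρ Bg ν) u v
      = ∑ b ∈ P u, ell Q c ρ Bg ν b * ∑ v with b ∈ Q v, ν v := by
    calc ∑ v, ν v * sm P Q (ell Q c ρ Bg ν) u v
        = ∑ v, ∑ b ∈ P u, if b ∈ Q v then ell Q c ρ Bg ν b * ν v else 0 := by
          apply Finset.sum_congr rfl
          intro v _
          unfold sm
          rw [Finset.mul_sum, ← Finset.filter_mem_eq_inter, Finset.sum_filter]
          apply Finset.sum_congr rfl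
          intro b _
          split_ifs
          · ring
          · rfl
      _ = ∑ b ∈ P u, ∑ v, if b ∈ Q v then ell Q c ρ Bg ν b * ν v else 0 := Finset.sum_comm
      _ = ∑ b ∈ P u, ell Q c ρ Bg ν b * ∑ v with b ∈ Q v, ν v := by
          apply Finset.sum_congr rfl
          intro b _
          rw [Finset.mul_sum, Finset.sum_filter]
  rw [h1]
  calc ∑ b ∈ P u, ell Q c ρ Bg ν b * ∑ v with b ∈ Q v, ν v
      ≤ ∑ b ∈ P u, c := by
        apply Finset.sum_le_sum
        intro b _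
        have h0 : 0 ≤ ∑ v with b ∈ Q v, ν v := Finset.sum_nonneg fun v _ => hν v
        unfold ell
        split_ifs
        · rw [zero_mul]
          exact hc
        · rw [div_mul_eq_mul_div, div_le_iff₀ (by positivity)]
          nlinarith
    _ = c * #(P u) := by
        rw [Finset.sum_const, nsmul_eq_mul, mul_comm]

/-- the matching attached to potentials `s, j` -/
noncomputable def xx (P Q : Fin n → Finset B) (c ρ θ τ₁ τ₂ K : ℝ) (Bg : Finset B)
    (s j : Fin n → ℝ) (u v : Fin n) : ℝ :=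
  K * cl ((τ₂ - sm P Q (ell Q c ρ Bg (nu θ j)) u v) / (τ₂ - τ₁)) * cl (s u + j v - 1)

/-- the self-map of the cube -/
noncomputable def FF (P Q : Fin n → Finset B) (c ρ θ τ₁ τ₂ K : ℝ) (Bg : Finset B)
    (z : Fin n ⊕ Fin n → ℝ) : Fin n ⊕ Fin n → ℝ
  | Sum.inl u => cl (z (Sum.inl u) + 1 - ∑ v, xx P Q c ρ θ τ₁ τ₂ K Bg
      (fun u => z (Sum.inl u)) (fun v => z (Sum.inr v)) u v)
  | Sum.inr v => cl (z (Sum.inr v) + 1 - ∑ u, xx P Q c ρ θ τ₁ τ₂ K Bg
      (fun u => z (Sum.inl u)) (fun v => z (Sum.inr v)) u v)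

lemma continuous_nu {θ : ℝ} (hθ : 0 < θ) (hn : 0 < n) (v : Fin n) :
    Continuous fun z : Fin n ⊕ Fin n → ℝ => nu θ (fun v => z (Sum.inr v)) v := by
  unfold nu
  apply Continuous.div
  · exact continuous_cl.comp (continuous_apply _)
  · unfold wtot
    apply Continuous.max
    · apply continuous_finsetSum
      intro w _
      exact continuous_cl.comp (continuous_apply _)
    · exact continuous_const
  · intro z
    exact (wtot_pos hθ hn _).ne'

lemma continuous_ell {Q : Fin n → Finset B} {c ρ θ : ℝ} {Bg : Finset B} (hρ : 0 < ρ)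
    (hθ : 0 < θ) (hn : 0 < n) (b : B) :
    Continuous fun z : Fin n ⊕ Fin n → ℝ =>
      ell Q c ρ Bg (nu θ (fun v => z (Sum.inr v))) b := by
  unfold ell
  by_cases hb : b ∈ Bg
  · simp only [if_pos hb]
    exact continuous_const
  · simp only [if_neg hb]
    apply Continuous.div continuous_const
    · apply Continuous.add _ continuous_const
      apply continuous_finsetSum
      intro v _
      exact continuous_nu hθ hn v
    · intro z
      have : 0 ≤ ∑ v with b ∈ Q v, nu θ (fun v => z (Sum.inr v)) v :=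
        Finset.sum_nonneg fun v _ => nu_nonneg hθ hn _ v
      positivity

lemma continuous_xx {P Q : Fin n → Finset B} {c ρ θ τ₁ τ₂ K : ℝ} {Bg : Finset B} (hρ : 0 < ρ)
    (hθ : 0 < θ) (hn : 0 < n) (u v : Fin n) :
    Continuous fun z : Fin n ⊕ Fin n → ℝ => xx P Q c ρ θ τ₁ τ₂ K Bg
      (fun u => z (Sum.inl u)) (fun v => z (Sum.inr v)) u v := by
  show Continuous fun z : Fin n ⊕ Fin n → ℝ => K * cl ((τ₂ - sm P Q (ell Q c ρ Bg
    (nu θ (fun v => z (Sum.inr v)))) u v) / (τ₂ - τ₁)) * cl (z (Sum.inl u) + z (Sum.inr v) - 1)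
  apply Continuous.mul
  · apply Continuous.mul continuous_const
    apply continuous_cl.comp
    apply Continuous.div_const
    apply Continuous.sub continuous_const
    unfold sm
    apply continuous_finsetSum
    intro b _
    exact continuous_ell hρ hθ hn b
  · have e1 : Continuous fun z : Fin n ⊕ Fin n → ℝ => z (Sum.inl u) := continuous_apply _
    have e2 : Continuous fun z : Fin n ⊕ Fin n → ℝ => z (Sum.inr v) := continuous_apply _
    exact continuous_cl.comp ((e1.add e2).sub continuous_const)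

lemma continuous_FF {P Q : Fin n → Finset B} {c ρ θ τ₁ τ₂ K : ℝ} {Bg : Finset B} (hρ : 0 < ρ)
    (hθ : 0 < θ) (hn : 0 < n) : Continuous (FF P Q c ρ θ τ₁ τ₂ K Bg) := by
  apply continuous_pi
  rintro (u | v)
  · unfold FF
    apply continuous_cl.comp
    apply Continuous.sub
    · exact (continuous_apply _).add continuous_const
    · apply continuous_finsetSum
      intro v _
      exact continuous_xx hρ hθ hn u v
  · unfold FF
    apply continuous_cl.comp
    apply Continuous.sub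
    · exact (continuous_apply _).add continuous_const
    · apply continuous_finsetSum
      intro u _
      exact continuous_xx hρ hθ hn u v

/-- **The fixed point.** -/
theorem fixed_point (hn : 0 < n) (P Q : Fin n → Finset B) (D c ρ θ τ₁ τ₂ : ℝ)
    (hP : ∀ u, (#(P u) : ℝ) ≤ D) (hc : 0 < c) (hρ : 0 < ρ) (hθ : 0 < θ)
    (h1 : 0 < τ₁) (h2 : τ₁ < τ₂) (hη : c * D < τ₁) (Bg : Finset B) :
    ∃ (x : Fin n → Fin n → ℝ) (ν : Fin n → ℝ),
      (∀ v, 0 ≤ ν v) ∧ (∀ v, ν v ≤ 1 / (θ * n)) ∧ (∑ v, ν v ≤ 1) ∧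
      (∀ u v, 0 ≤ x u v) ∧ (∀ u v, x u v ≤ 1 / ((1 - c * D / τ₁) * (θ * n))) ∧
      (∀ u, ∑ v, x u v ≤ 1) ∧ (∀ v, ∑ u, x u v ≤ 1) ∧
      ((1 - θ) * n ≤ ∑ u, ∑ v, x u v) ∧
      (∀ u v, x u v ≠ 0 → sm P Q (ell Q c ρ Bg ν) u v ≤ τ₂) := by
  have hn' : (0:ℝ) < n := by exact_mod_cast hn
  have hη' : 0 < 1 - c * D / τ₁ := by
    rw [sub_pos, div_lt_one h1]
    exact hη
  obtain ⟨K, hK⟩ : ∃ K : ℝ, K = 1 / ((1 - c * D / τ₁) * (θ * n)) := ⟨_, rfl⟩
  have hK0 : 0 < K := by
    rw [hK]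
    positivity
  obtain ⟨z, hz, hfix⟩ := Pool.Agent.Brouwer.brouwer_cube (ι := Fin n ⊕ Fin n)
    (FF P Q c ρ θ τ₁ τ₂ K Bg) (continuous_FF hρ hθ hn).continuousOn (by
      intro z _
      constructor
      · rintro (u | v) <;> exact cl_nonneg _
      · rintro (u | v) <;> exact cl_le_one _)
  obtain ⟨s, hs⟩ : ∃ s : Fin n → ℝ, s = fun u => z (Sum.inl u) := ⟨_, rfl⟩
  obtain ⟨j, hj⟩ : ∃ j : Fin n → ℝ, j = fun v => z (Sum.inr v) := ⟨_, rfl⟩
  obtain ⟨x, hx⟩ : ∃ x : Fin n → Fin n → ℝ, x = xx P Q c ρ θ τ₁ τ₂ K Bg s j := ⟨_, rfl⟩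
  have hs0 : ∀ u, 0 ≤ s u := fun u => by
    rw [hs]
    exact hz.1 _
  have hs1 : ∀ u, s u ≤ 1 := fun u => by
    rw [hs]
    exact hz.2 _
  have hj0 : ∀ v, 0 ≤ j v := fun u => by
    rw [hj]
    exact hz.1 _
  have hj1 : ∀ v, j v ≤ 1 := fun u => by
    rw [hj]
    exact hz.2 _
  have hfs : ∀ u, cl (s u + 1 - ∑ v, x u v) = s u := by
    intro u
    have := congrFun hfix (Sum.inl u)
    rw [hx, hs, hj]
    exact this
  have hfj : ∀ v, cl (j v + 1 - ∑ u, x u v) = j v := by
    intro v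
    have := congrFun hfix (Sum.inr v)
    rw [hx, hs, hj]
    exact this
  have hx0 : ∀ u v, 0 ≤ x u v := by
    intro u v
    rw [hx]
    unfold xx
    have := cl_nonneg ((τ₂ - sm P Q (ell Q c ρ Bg (nu θ j)) u v) / (τ₂ - τ₁))
    have := cl_nonneg (s u + j v - 1)
    positivity
  have hxK : ∀ u v, x u v ≤ K := by
    intro u v
    rw [hx]
    unfold xx
    have e1 := cl_nonneg ((τ₂ - sm P Q (ell Q c ρ Bg (nu θ j)) u v) / (τ₂ - τ₁))
    have e2 := cl_nonneg (s u + j v - 1)
    have e3 := cl_le_one ((τ₂ - sm P Q (ell Q c ρ Bg (nu θ j)) u v) / (τ₂ - τ₁))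
    have e4 := cl_le_one (s u + j v - 1)
    calc K * cl ((τ₂ - sm P Q (ell Q c ρ Bg (nu θ j)) u v) / (τ₂ - τ₁)) * cl (s u + j v - 1)
        ≤ K * 1 * 1 := by gcongr
      _ = K := by ring
  have hrow : ∀ u, ∑ v, x u v ≤ 1 := by
    intro u
    by_contra hgt
    push Not at hgt
    have h0 := fix_gt (hs1 u) (hfs u) hgt
    have : ∑ v, x u v = 0 := by
      apply Finset.sum_eq_zero
      intro v _
      rw [hx]
      unfold xx
      rw [cl_nonpos (t := s u + j v - 1) (by rw [h0]; linarith [hj1 v]), mul_zero]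
    linarith
  have hcol : ∀ v, ∑ u, x u v ≤ 1 := by
    intro v
    by_contra hgt
    push Not at hgt
    have h0 := fix_gt (hj1 v) (hfj v) hgt
    have : ∑ u, x u v = 0 := by
      apply Finset.sum_eq_zero
      intro u _
      rw [hx]
      unfold xx
      rw [cl_nonpos (t := s u + j v - 1) (by rw [h0]; linarith [hs1 u]), mul_zero]
    linarith
  have hν0 : ∀ v, 0 ≤ nu θ j v := nu_nonneg hθ hn j
  have hℓ0 : ∀ b, 0 ≤ ell Q c ρ Bg (nu θ j) b := ell_nonneg hc.le hρ hν0
  have hsm0 : ∀ u v, 0 ≤ sm P Q (ell Q c ρ Bg (nu θ j)) u v := by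
    intro u v
    unfold sm
    exact Finset.sum_nonneg fun b _ => hℓ0 b
  -- an unsaturated row forces the total weight to be small
  have hunsat : ∀ u, ∑ v, x u v < 1 → ∑ v, cl (j v) < θ * n := by
    intro u hu
    by_contra hge
    push Not at hge
    have hs1' := fix_lt (hs0 u) (hfs u) hu
    have hW : wtot θ j = ∑ v, cl (j v) := max_eq_left hge
    have hWpos := wtot_pos hθ hn j
    have hxv : ∀ v, K * wtot θ j * (nu θ j v - nu θ j v *
        sm P Q (ell Q c ρ Bg (nu θ j)) u v / τ₁) ≤ x u v := by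
      intro v
      have e1 := cut_ge (hsm0 u v) h1 h2
      have e2 : cl (s u + j v - 1) = wtot θ j * nu θ j v := by
        unfold nu
        rw [hs1']
        rw [show (1:ℝ) + j v - 1 = j v by ring]
        field_simp
      rw [hx]
      unfold xx
      rw [e2]
      have e3 : K * wtot θ j * (nu θ j v - nu θ j v *
          sm P Q (ell Q c ρ Bg (nu θ j)) u v / τ₁)
          = K * (1 - sm P Q (ell Q c ρ Bg (nu θ j)) u v / τ₁) * (wtot θ j * nu θ j v) := by
        ring
      rw [e3]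
      have := hν0 v
      gcongr
    have hsum : K * wtot θ j * (1 - c * D / τ₁) ≤ ∑ v, x u v := by
      calc K * wtot θ j * (1 - c * D / τ₁)
          ≤ K * wtot θ j * (∑ v, nu θ j v - (∑ v, nu θ j v *
            sm P Q (ell Q c ρ Bg (nu θ j)) u v) / τ₁) := by
            have e1 : ∑ v, nu θ j v = 1 := by
              unfold nu
              rw [← Finset.sum_div, ← hW, div_self hWpos.ne']
            have e2 := avg_le (P := P) (Q := Q) hc.le hρ (Bg := Bg) hν0 u
            have e3 : ∑ v, nu θ j v * sm P Q (ell Q c ρ Bg (nu θ j)) u v ≤ c * D :=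
              e2.trans (mul_le_mul_of_nonneg_left (hP u) hc.le)
            rw [e1]
            gcongr
        _ = ∑ v, K * wtot θ j * (nu θ j v - nu θ j v *
            sm P Q (ell Q c ρ Bg (nu θ j)) u v / τ₁) := by
            rw [← Finset.mul_sum, Finset.sum_sub_distrib, Finset.sum_div]
        _ ≤ ∑ v, x u v := Finset.sum_le_sum fun v _ => hxv v
    have h3 : 1 ≤ K * wtot θ j * (1 - c * D / τ₁) := by
      have e1 : θ * n ≤ wtot θ j := le_max_right _ _
      calc (1:ℝ) = K * (θ * n) * (1 - c * D / τ₁) := by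
            rw [hK, div_mul_eq_mul_div, div_mul_eq_mul_div, one_mul, eq_comm,
              div_eq_one_iff_eq (by positivity)]
            ring
        _ ≤ K * wtot θ j * (1 - c * D / τ₁) := by gcongr
    linarith
  refine ⟨x, nu θ j, hν0, nu_le hθ hn j, sum_nu_le hθ hn j, hx0, ?_, hrow, hcol, ?_, ?_⟩
  · intro u v
    rw [← hK]
    exact hxK u v
  · by_cases hall : ∀ u, ∑ v, x u v = 1
    · have : ∑ u, ∑ v, x u v = n := by
        rw [Finset.sum_congr rfl (fun u _ => hall u)]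
        simp
      rw [this]
      nlinarith
    · push Not at hall
      obtain ⟨u, hu⟩ := hall
      have hW := hunsat u (lt_of_le_of_ne (hrow u) hu)
      rw [Finset.sum_comm]
      have hv : ∀ v, 1 - cl (j v) ≤ ∑ u, x u v := by
        intro v
        rcases lt_or_ge (∑ u, x u v) 1 with hlt | hge
        · have := fix_lt (hj0 v) (hfj v) hlt
          rw [this, cl_one_le le_rfl]
          simpa using Finset.sum_nonneg fun u _ => hx0 u v
        · have := cl_nonneg (j v)
          linarith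
      calc (1 - θ) * n ≤ n - ∑ v, cl (j v) := by nlinarith
        _ = ∑ v : Fin n, (1 - cl (j v)) := by
            rw [Finset.sum_sub_distrib]
            simp
        _ ≤ ∑ v, ∑ u, x u v := Finset.sum_le_sum fun v _ => hv v
  · intro u v huv
    apply cut_zero h2
    intro h0
    apply huv
    rw [hx]
    unfold xx
    rw [h0]
    ring

end

end Pool.Agent.Lib_helper37.VL
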