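import Mathlib
import Pool.Agent.Lib_helper23.VLProb

/-!
# Second moments of weighted counts of closed sets
-/

open Finset Pool.Agent.Lib_helper23.VanLint

namespace Pool.Agent.Lib_helper37.VL

section
variable {B : Type*} [Fintype B] [DecidableEq B]

omit [Fintype B] [DecidableEq B] in
lemma prod_pos' {κ : B → ℝ} (h0 : ∀ b, 0 < κ b) (S : Finset B) : 0 < ∏ b ∈ S, κ b :=
  Finset.prod_pos fun b _ => h0 b

lemma cov_eq (κ : B → ℝ) (h0 : ∀ b, 0 < κ b) (S S' : Finset B) :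
    Ex κ (fun T => ((∏ b ∈ S, κ b)⁻¹ * ind S T - 1) * ((∏ b ∈ S', κ b)⁻¹ * ind S' T - 1)) =
      (∏ b ∈ S, κ b)⁻¹ * (∏ b ∈ S', κ b)⁻¹ * (∏ b ∈ S ∪ S', κ b) - 1 := by
  have e : (fun T => ((∏ b ∈ S, κ b)⁻¹ * ind S T - 1) * ((∏ b ∈ S', κ b)⁻¹ * ind S' T - 1))
      = fun T => ((∏ b ∈ S, κ b)⁻¹ * (∏ b ∈ S', κ b)⁻¹) * ind (S ∪ S') T
        + ((-(∏ b ∈ S, κ b)⁻¹) * ind S T + ((-(∏ b ∈ S', κ b)⁻¹) * ind S' T + 1)) := by
    funext T
    rw [← ind_mul]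
    ring
  rw [e]
  simp only [Ex_add, Ex_smul, Ex_const]
  have e1 : ∀ S : Finset B, Ex κ (fun T => ind S T) = ∏ b ∈ S, κ b := fun S => Ex_ind κ S
  rw [e1, e1, e1]
  have h1 := (prod_pos' h0 S).ne'
  have h2 := (prod_pos' h0 S').ne'
  field_simp
  ring

lemma cov_le (κ : B → ℝ) (h0 : ∀ b, 0 < κ b) (h1 : ∀ b, κ b ≤ 1) (S S' : Finset B) :
    Ex κ (fun T => ((∏ b ∈ S, κ b)⁻¹ * ind S T - 1) * ((∏ b ∈ S', κ b)⁻¹ * ind S' T - 1)) ≤
      (∏ b ∈ S, κ b)⁻¹ := by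
  rw [cov_eq κ h0]
  have p1 := prod_pos' h0 S
  have p2 := prod_pos' h0 S'
  have h3 : ∏ b ∈ S ∪ S', κ b ≤ ∏ b ∈ S', κ b := by
    rw [← Finset.prod_sdiff (Finset.subset_union_right (s₁ := S) (s₂ := S'))]
    have h6 : ∏ b ∈ (S ∪ S') \ S', κ b ≤ 1 :=
      Finset.prod_le_one (fun b _ => (h0 b).le) (fun b _ => h1 b)
    calc (∏ b ∈ (S ∪ S') \ S', κ b) * ∏ b ∈ S', κ b ≤ 1 * ∏ b ∈ S', κ b := by gcongr
      _ = ∏ b ∈ S', κ b := one_mul _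
  have h4 : (∏ b ∈ S, κ b)⁻¹ * (∏ b ∈ S', κ b)⁻¹ * (∏ b ∈ S ∪ S', κ b)
      ≤ (∏ b ∈ S, κ b)⁻¹ * (∏ b ∈ S', κ b)⁻¹ * (∏ b ∈ S', κ b) := by gcongr
  have h5 : (∏ b ∈ S, κ b)⁻¹ * (∏ b ∈ S', κ b)⁻¹ * (∏ b ∈ S', κ b) = (∏ b ∈ S, κ b)⁻¹ := by
    field_simp
  linarith

lemma cov_zero (κ : B → ℝ) (h0 : ∀ b, 0 < κ b) (S S' : Finset B)
    (h : ∀ b ∈ S, b ∈ S' → κ b = 1) :
    Ex κ (fun T => ((∏ b ∈ S, κ b)⁻¹ * ind S T - 1) * ((∏ b ∈ S', κ b)⁻¹ * ind S' T - 1))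
      = 0 := by
  rw [cov_eq κ h0]
  have p1 := prod_pos' h0 S
  have p2 := prod_pos' h0 S'
  have h3 : ∏ b ∈ S ∪ S', κ b = (∏ b ∈ S, κ b) * ∏ b ∈ S', κ b := by
    rw [← Finset.prod_union_inter, Finset.prod_eq_one (s := S ∩ S'), mul_one]
    intro b hb
    rw [Finset.mem_inter] at hb
    exact h b hb.1 hb.2
  rw [h3]
  field_simp
  ring

/-- **Variance bound.** -/
lemma var_bound {ι : Type*} [Fintype ι] (κ : B → ℝ) (h0 : ∀ b, 0 < κ b) (h1 : ∀ b, κ b ≤ 1)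
    (S : ι → Finset B) (a : ι → ℝ) (ha : ∀ i, 0 ≤ a i) (K M N : ℝ) (hK : 0 ≤ K) (hM0 : 0 ≤ M)
    (hN0 : 0 ≤ N) (haK : ∀ i, a i ≤ K) (hsum : ∑ i, a i ≤ 1)
    (hM : ∀ i, a i ≠ 0 → (∏ b ∈ S i, κ b)⁻¹ ≤ M)
    (hN : ∀ i, a i ≠ 0 → ∀ R : Finset ι, (∀ j ∈ R, ∃ b ∈ S i, b ∈ S j ∧ κ b ≠ 1) →
      (#R : ℝ) ≤ N) :
    Ex κ (fun T => (∑ i, a i * ((∏ b ∈ S i, κ b)⁻¹ * ind (S i) T) - ∑ i, a i) ^ 2)
      ≤ K * N * M := by
  classical
  have e : (fun T => (∑ i, a i * ((∏ b ∈ S i, κ b)⁻¹ * ind (S i) T) - ∑ i, a i) ^ 2)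
      = fun T => ∑ i, ∑ j, (a i * a j) * (((∏ b ∈ S i, κ b)⁻¹ * ind (S i) T - 1) *
        ((∏ b ∈ S j, κ b)⁻¹ * ind (S j) T - 1)) := by
    funext T
    rw [← Finset.sum_sub_distrib, pow_two, Finset.sum_mul_sum]
    apply Finset.sum_congr rfl
    intro i _
    apply Finset.sum_congr rfl
    intro j _
    ring
  rw [e, Ex_sum]
  have hrow : ∀ i, Ex κ (fun T => ∑ j, (a i * a j) * (((∏ b ∈ S i, κ b)⁻¹ * ind (S i) T - 1) *
        ((∏ b ∈ S j, κ b)⁻¹ * ind (S j) T - 1))) ≤ a i * (K * N * M) := by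
    intro i
    rw [Ex_sum]
    by_cases hi : a i = 0
    · rw [hi]
      simp only [zero_mul]
      rw [Finset.sum_eq_zero]
      intro j _
      exact Ex_const κ 0
    · obtain ⟨R, hR⟩ : ∃ R : Finset ι,
          R = Finset.univ.filter (fun j => ∃ b ∈ S i, b ∈ S j ∧ κ b ≠ 1) := ⟨_, rfl⟩
      have hRN : (#R : ℝ) ≤ N := hN i hi R (by
        intro j hj
        rw [hR, Finset.mem_filter] at hj
        exact hj.2)
      have hterm : ∀ j, Ex κ (fun T => (a i * a j) * (((∏ b ∈ S i, κ b)⁻¹ * ind (S i) T - 1) *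
          ((∏ b ∈ S j, κ b)⁻¹ * ind (S j) T - 1))) ≤ if j ∈ R then a i * K * M else 0 := by
        intro j
        rw [Ex_smul]
        by_cases hj : j ∈ R
        · rw [if_pos hj]
          have h3 := cov_le κ h0 h1 (S i) (S j)
          have h4 := h3.trans (hM i hi)
          have hai := ha i
          have haj := ha j
          calc a i * a j * _ ≤ a i * a j * M := by gcongr
            _ ≤ a i * K * M := by
              have := haK j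
              gcongr
        · rw [if_neg hj, cov_zero κ h0, mul_zero]
          intro b hb hb'
          by_contra hne
          apply hj
          rw [hR, Finset.mem_filter]
          exact ⟨Finset.mem_univ _, b, hb, hb', hne⟩
      calc ∑ j, Ex κ (fun T => (a i * a j) * (((∏ b ∈ S i, κ b)⁻¹ * ind (S i) T - 1) *
          ((∏ b ∈ S j, κ b)⁻¹ * ind (S j) T - 1)))
          ≤ ∑ j, (if j ∈ R then a i * K * M else 0) := Finset.sum_le_sum fun j _ => hterm j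
        _ = #R * (a i * K * M) := by
            rw [← Finset.sum_filter, Finset.filter_mem_eq_inter, Finset.univ_inter,
              Finset.sum_const, nsmul_eq_mul]
        _ ≤ N * (a i * K * M) := by
            have hai := ha i
            gcongr
        _ = a i * (K * N * M) := by ring
  calc ∑ i, Ex κ _ ≤ ∑ i, a i * (K * N * M) := Finset.sum_le_sum fun i _ => hrow i
    _ = (∑ i, a i) * (K * N * M) := by rw [Finset.sum_mul]
    _ ≤ 1 * (K * N * M) := by gcongr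
    _ = K * N * M := one_mul _

end

end Pool.Agent.Lib_helper37.VL
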