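import Mathlib
import Pool.Agent.Lib_helper37.VL.FP
import Pool.Agent.Lib_helper37.VL.PR
import Pool.Agent.Lib_helper37.VL.BK

/-!
# The inequality behind the lower bound
-/

open Finset Pool.Agent.Lib_helper23.VanLint

namespace Pool.Agent.Lib_helper37.VL

lemma dev_bound {X r ε : ℝ} (hε : 0 < ε) (hr : r ≤ 1) (hX : 1 + ε < X) :
    X ≤ (1 / ε ^ 2 + 1 / ε) * (X - r) ^ 2 := by
  obtain ⟨t, ht⟩ : ∃ t : ℝ, t = X - r := ⟨_, rfl⟩
  have h1 : ε ≤ t := by linarith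
  rw [← ht]
  have h2 : X ≤ 1 + t := by linarith
  have h3 : 1 ≤ (1 / ε ^ 2) * t ^ 2 := by
    rw [one_div, inv_mul_eq_div, le_div_iff₀ (by positivity), one_mul]
    exact pow_le_pow_left₀ hε.le h1 2
  have h4 : t ≤ (1 / ε) * t ^ 2 := by
    rw [one_div, inv_mul_eq_div, le_div_iff₀ (by positivity)]
    nlinarith
  calc X ≤ 1 + t := h2
    _ ≤ (1 / ε ^ 2) * t ^ 2 + (1 / ε) * t ^ 2 := by linarith
    _ = _ := by ring

/-- The total mass of a nonnegative matrix supported on closed pairs, up to the deviations of its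
row and column sums. -/
lemma mass_pointwise {n : ℕ} (y : Fin n → Fin n → ℝ) (h0 : ∀ u v, 0 ≤ y u v)
    (Cl : Fin n → Fin n → Prop) [∀ u v, Decidable (Cl u v)] (hcl : ∀ u v, y u v ≠ 0 → Cl u v)
    (N : ℝ) (hN : ∀ σ : Equiv.Perm (Fin n), (#{u | Cl u (σ u)} : ℝ) ≤ N) (ε : ℝ) (hε : 0 < ε)
    (rb cb : Fin n → ℝ) (hrb : ∀ u, rb u ≤ 1) (hcb : ∀ v, cb v ≤ 1) :
    ∑ u, ∑ v, y u v ≤ (1 + ε) * N + ((1 / ε ^ 2 + 1 / ε) * ∑ u, (∑ v, y u v - rb u) ^ 2 +
      (1 / ε ^ 2 + 1 / ε) * ∑ v, (∑ u, y u v - cb v) ^ 2) := by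
  classical
  obtain ⟨y', hy'⟩ : ∃ y' : Fin n → Fin n → ℝ, y' = fun u v =>
    if ∑ v, y u v ≤ 1 + ε ∧ ∑ u, y u v ≤ 1 + ε then y u v / (1 + ε) else 0 := ⟨_, rfl⟩
  have h1ε : 0 < 1 + ε := by linarith
  have hy0 : ∀ u v, 0 ≤ y' u v := by
    intro u v
    simp only [hy']
    split_ifs
    · exact div_nonneg (h0 u v) h1ε.le
    · exact le_rfl
  have hyle : ∀ u v, y' u v ≤ y u v / (1 + ε) := by
    intro u v
    simp only [hy']
    split_ifs
    · exact le_rfl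
    · exact div_nonneg (h0 u v) h1ε.le
  have hrow : ∀ u, ∑ v, y' u v ≤ 1 := by
    intro u
    by_cases hu : ∑ v, y u v ≤ 1 + ε
    · calc ∑ v, y' u v ≤ ∑ v, y u v / (1 + ε) := Finset.sum_le_sum fun v _ => hyle u v
        _ = (∑ v, y u v) / (1 + ε) := by rw [Finset.sum_div]
        _ ≤ 1 := by
          rw [div_le_one h1ε]
          exact hu
    · rw [Finset.sum_eq_zero]
      · exact zero_le_one
      · intro v _
        simp only [hy']
        rw [if_neg]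
        exact fun h => hu h.1
  have hcol : ∀ v, ∑ u, y' u v ≤ 1 := by
    intro v
    by_cases hv : ∑ u, y u v ≤ 1 + ε
    · calc ∑ u, y' u v ≤ ∑ u, y u v / (1 + ε) := Finset.sum_le_sum fun u _ => hyle u v
        _ = (∑ u, y u v) / (1 + ε) := by rw [Finset.sum_div]
        _ ≤ 1 := by
          rw [div_le_one h1ε]
          exact hv
    · rw [Finset.sum_eq_zero]
      · exact zero_le_one
      · intro u _
        simp only [hy']
        rw [if_neg]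
        exact fun h => hv h.2
  have hcl' : ∀ u v, y' u v ≠ 0 → Cl u v := by
    intro u v h
    apply hcl
    intro h3
    apply h
    simp only [hy']
    rw [h3, zero_div, ite_self]
  have hmass := mass_le_of_perm y' hy0 hrow hcol Cl hcl' N hN
  have hterm : ∀ u v, y u v ≤ (1 + ε) * y' u v + ((if 1 + ε < ∑ v, y u v then y u v else 0) +
      (if 1 + ε < ∑ u, y u v then y u v else 0)) := by
    intro u v
    have h3 := h0 u v
    by_cases hu : ∑ v, y u v ≤ 1 + ε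
    · by_cases hv : ∑ u, y u v ≤ 1 + ε
      · rw [if_neg (not_lt.mpr hu), if_neg (not_lt.mpr hv)]
        simp only [hy']
        rw [if_pos ⟨hu, hv⟩, mul_div_cancel₀ _ h1ε.ne']
        linarith
      · push Not at hv
        rw [if_pos hv]
        have h4 : 0 ≤ (1 + ε) * y' u v := mul_nonneg h1ε.le (hy0 u v)
        have h5 : 0 ≤ if 1 + ε < ∑ v, y u v then y u v else 0 := by
          split_ifs
          · exact h3
          · exact le_rfl
        linarith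
    · push Not at hu
      rw [if_pos hu]
      have h4 : 0 ≤ (1 + ε) * y' u v := mul_nonneg h1ε.le (hy0 u v)
      have h5 : 0 ≤ if 1 + ε < ∑ u, y u v then y u v else 0 := by
        split_ifs
        · exact h3
        · exact le_rfl
      linarith
  have hC : 0 ≤ 1 / ε ^ 2 + 1 / ε := by positivity
  have hbr : ∑ u, ∑ v, (if 1 + ε < ∑ v, y u v then y u v else 0) ≤
      (1 / ε ^ 2 + 1 / ε) * ∑ u, (∑ v, y u v - rb u) ^ 2 := by
    rw [Finset.mul_sum]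
    apply Finset.sum_le_sum
    intro u _
    by_cases hu : 1 + ε < ∑ v, y u v
    · simp only [if_pos hu]
      exact dev_bound hε (hrb u) hu
    · simp only [if_neg hu, Finset.sum_const_zero]
      positivity
  have hbc : ∑ u, ∑ v, (if 1 + ε < ∑ u, y u v then y u v else 0) ≤
      (1 / ε ^ 2 + 1 / ε) * ∑ v, (∑ u, y u v - cb v) ^ 2 := by
    rw [Finset.sum_comm, Finset.mul_sum]
    apply Finset.sum_le_sum
    intro v _
    by_cases hv : 1 + ε < ∑ u, y u v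
    · simp only [if_pos hv]
      exact dev_bound hε (hcb v) hv
    · simp only [if_neg hv, Finset.sum_const_zero]
      positivity
  calc ∑ u, ∑ v, y u v
      ≤ ∑ u, ∑ v, ((1 + ε) * y' u v + ((if 1 + ε < ∑ v, y u v then y u v else 0) +
      (if 1 + ε < ∑ u, y u v then y u v else 0))) :=
        Finset.sum_le_sum fun u _ => Finset.sum_le_sum fun v _ => hterm u v
    _ = (1 + ε) * ∑ u, ∑ v, y' u v + (∑ u, ∑ v, (if 1 + ε < ∑ v, y u v then y u v else 0) +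
      ∑ u, ∑ v, (if 1 + ε < ∑ u, y u v then y u v else 0)) := by
        simp only [Finset.sum_add_distrib, Finset.mul_sum]
    _ ≤ _ := by gcongr

lemma exp_neg_le {y : ℝ} (hy : 0 < y) : Real.exp (-y) ≤ 1 / (y * Real.exp 1) := by
  rw [le_div_iff₀ (by positivity)]
  have h := Real.add_one_le_exp (y - 1)
  have h2 : Real.exp (-y) * Real.exp (y - 1) * Real.exp 1 = 1 := by
    rw [← Real.exp_add, ← Real.exp_add]
    rw [show -y + (y - 1) + 1 = 0 by ring, Real.exp_zero]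
  calc Real.exp (-y) * (y * Real.exp 1) = Real.exp (-y) * (y - 1 + 1) * Real.exp 1 := by ring
    _ ≤ Real.exp (-y) * Real.exp (y - 1) * Real.exp 1 := by gcongr
    _ = 1 := h2

section
variable {n : ℕ} {B : Type*} [Fintype B] [DecidableEq B]

lemma sum_deg (P : Fin n → Finset B) : ∑ b, #{u | b ∈ P u} = ∑ u, #(P u) := by
  simp only [Finset.card_filter]
  rw [Finset.sum_comm]
  apply Finset.sum_congr rfl
  intro u _
  rw [← Finset.card_filter]
  simp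

lemma sum_wdeg (Q : Fin n → Finset B) (ν : Fin n → ℝ) :
    ∑ b, ∑ v with b ∈ Q v, ν v = ∑ v, ν v * #(Q v) := by
  simp only [Finset.sum_filter]
  rw [Finset.sum_comm]
  apply Finset.sum_congr rfl
  intro v _
  rw [← Finset.sum_filter]
  simp [mul_comm]

omit [Fintype B] in
/-- the neighbours in a row or column: counting -/
lemma count_close {ι : Type*} [Fintype ι] [DecidableEq ι] (S : Finset B)
    (Rr : ι → Finset B) (Bg : Finset B)
    (ℓ : B → ℝ) (ℓm H τ : ℝ) (hℓm : 0 < ℓm) (hH : 0 ≤ H) (hℓ0 : ∀ b, 0 ≤ ℓ b)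
    (hℓ : ∀ b, b ∉ Bg → ℓm ≤ ℓ b) (hτ : ∑ b ∈ S, ℓ b ≤ τ)
    (hdeg : ∀ b, b ∉ Bg → (#{i | b ∈ Rr i} : ℝ) ≤ H)
    (R : Finset ι) (hR : ∀ j ∈ R, ∃ b ∈ S, b ∈ Rr j ∧ b ∉ Bg) : (#R : ℝ) ≤ τ / ℓm * H := by
  have h1 : R ⊆ (S \ Bg).biUnion (fun b => ({i | b ∈ Rr i} : Finset ι)) := by
    intro j hj
    obtain ⟨b, hb, hb2, hb3⟩ := hR j hj
    rw [Finset.mem_biUnion]
    refine ⟨b, Finset.mem_sdiff.mpr ⟨hb, hb3⟩, ?_⟩
    rw [Finset.mem_filter]
    exact ⟨Finset.mem_univ _, hb2⟩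
  have h2 : (#R : ℝ) ≤ ∑ b ∈ S \ Bg, (#{i | b ∈ Rr i} : ℝ) := by
    have := (Finset.card_le_card h1).trans Finset.card_biUnion_le
    exact_mod_cast this
  have h3 : ∑ b ∈ S \ Bg, (#{i | b ∈ Rr i} : ℝ) ≤ #(S \ Bg) * H := by
    calc ∑ b ∈ S \ Bg, (#{i | b ∈ Rr i} : ℝ) ≤ ∑ b ∈ S \ Bg, H := by
          apply Finset.sum_le_sum
          intro b hb
          exact hdeg b (Finset.mem_sdiff.mp hb).2
      _ = #(S \ Bg) * H := by rw [Finset.sum_const, nsmul_eq_mul]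
  have h4 : (#(S \ Bg) : ℝ) * ℓm ≤ τ := by
    calc (#(S \ Bg) : ℝ) * ℓm = ∑ b ∈ S \ Bg, ℓm := by rw [Finset.sum_const, nsmul_eq_mul]
      _ ≤ ∑ b ∈ S \ Bg, ℓ b := by
          apply Finset.sum_le_sum
          intro b hb
          exact hℓ b (Finset.mem_sdiff.mp hb).2
      _ ≤ ∑ b ∈ S, ℓ b := by
          apply Finset.sum_le_sum_of_subset_of_nonneg Finset.sdiff_subset
          intro b _ _
          exact hℓ0 b
      _ ≤ τ := hτ
  have h5 : (#(S \ Bg) : ℝ) ≤ τ / ℓm := by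
    rw [le_div_iff₀ hℓm]
    exact h4
  calc (#R : ℝ) ≤ #(S \ Bg) * H := h2.trans h3
    _ ≤ τ / ℓm * H := by gcongr

/-- **The inequality.** -/
theorem lower_ineq (hn : 0 < n) (P Q : Fin n → Finset B) (D : ℝ)
    (hP : ∀ u, (#(P u) : ℝ) ≤ D) (hQ : ∀ v, (#(Q v) : ℝ) ≤ D)
    (hpair : ∀ σ : Equiv.Perm (Fin n), ∃ f : Fin n → B, Function.Injective f ∧
      ∀ u, f u ∈ P u ∧ f u ∈ Q (σ u))
    (c ρ θ τ₁ τ₂ H ε : ℝ) (hc : 0 < c) (hρ : 0 < ρ) (hθ : 0 < θ)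
    (h1 : 0 < τ₁) (h2 : τ₁ < τ₂) (hη : c * D < τ₁) (hH : 0 < H) (hε : 0 < ε)
    (hρH : ρ ≤ H / (θ * n)) :
    (1 - θ) * n ≤ (1 + ε) * (2 * n * D / H + (D + Fintype.card B * ρ) / (c * Real.exp 1)) +
      2 * (1 / ε ^ 2 + 1 / ε) * n * (1 / ((1 - c * D / τ₁) * (θ * n)) *
        (τ₂ / (c * (θ * n) / (2 * H)) * H) * Real.exp τ₂) := by
  classical
  have hn' : (0:ℝ) < n := by exact_mod_cast hn
  have hD0 : 0 ≤ D := le_trans (Nat.cast_nonneg _) (hP ⟨0, hn⟩)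
  have hη' : 0 < 1 - c * D / τ₁ := by
    rw [sub_pos, div_lt_one h1]
    exact hη
  obtain ⟨Bg, hBg⟩ : ∃ Bg : Finset B,
    Bg = Finset.univ.filter (fun b => H < (#{u | b ∈ P u} : ℝ) ∨ H < (#{v | b ∈ Q v} : ℝ)) :=
    ⟨_, rfl⟩
  have hBgP : ∀ b, b ∉ Bg → (#{u | b ∈ P u} : ℝ) ≤ H := by
    intro b hb
    by_contra h
    push Not at h
    apply hb
    rw [hBg, Finset.mem_filter]
    exact ⟨Finset.mem_univ _, Or.inl h⟩
  have hBgQ : ∀ b, b ∉ Bg → (#{v | b ∈ Q v} : ℝ) ≤ H := by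
    intro b hb
    by_contra h
    push Not at h
    apply hb
    rw [hBg, Finset.mem_filter]
    exact ⟨Finset.mem_univ _, Or.inr h⟩
  have hBgcard : (#Bg : ℝ) ≤ 2 * n * D / H := by
    rw [le_div_iff₀ hH]
    calc (#Bg : ℝ) * H = ∑ b ∈ Bg, H := by rw [Finset.sum_const, nsmul_eq_mul]
      _ ≤ ∑ b ∈ Bg, ((#{u | b ∈ P u} : ℝ) + #{v | b ∈ Q v}) := by
          apply Finset.sum_le_sum
          intro b hb
          rw [hBg, Finset.mem_filter] at hb
          have e1 : (0:ℝ) ≤ #{u | b ∈ P u} := Nat.cast_nonneg _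
          have e2 : (0:ℝ) ≤ #{v | b ∈ Q v} := Nat.cast_nonneg _
          rcases hb.2 with h | h <;> linarith
      _ ≤ ∑ b, ((#{u | b ∈ P u} : ℝ) + #{v | b ∈ Q v}) := by
          apply Finset.sum_le_sum_of_subset_of_nonneg (Finset.subset_univ _)
          intro b _ _
          positivity
      _ = ∑ u, (#(P u) : ℝ) + ∑ v, (#(Q v) : ℝ) := by
          rw [Finset.sum_add_distrib]
          have e1 := sum_deg P
          have e2 := sum_deg Q
          congr 1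
          · exact_mod_cast e1
          · exact_mod_cast e2
      _ ≤ ∑ u : Fin n, D + ∑ v : Fin n, D := by
          gcongr with u _ v _
          · exact hP u
          · exact hQ v
      _ = 2 * n * D := by
          rw [Finset.sum_const, Finset.card_univ, Fintype.card_fin, nsmul_eq_mul]
          ring
  obtain ⟨x, ν, hν0, hν1, hνs, hx0, hxK, hrow, hcol, htot, hxs⟩ :=
    fixed_point hn P Q D c ρ θ τ₁ τ₂ hP hc hρ hθ h1 h2 hη Bg
  obtain ⟨ℓ, hℓ⟩ : ∃ ℓ : B → ℝ, ℓ = ell Q c ρ Bg ν := ⟨_, rfl⟩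
  rw [← hℓ] at hxs
  have hq0 : ∀ b, 0 ≤ ∑ v with b ∈ Q v, ν v := fun b => Finset.sum_nonneg fun v _ => hν0 v
  have hℓ0 : ∀ b, 0 ≤ ℓ b := by
    rw [hℓ]
    exact ell_nonneg hc.le hρ hν0
  have hℓBg : ∀ b ∈ Bg, ℓ b = 0 := by
    intro b hb
    rw [hℓ]
    unfold ell
    rw [if_pos hb]
  have hℓn : ∀ b, b ∉ Bg → ℓ b = c / ((∑ v with b ∈ Q v, ν v) + ρ) := by
    intro b hb
    rw [hℓ]
    unfold ell
    rw [if_neg hb]
  obtain ⟨ℓm, hℓm⟩ : ∃ ℓm : ℝ, ℓm = c * (θ * n) / (2 * H) := ⟨_, rfl⟩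
  have hℓm0 : 0 < ℓm := by
    rw [hℓm]
    positivity
  have hℓge : ∀ b, b ∉ Bg → ℓm ≤ ℓ b := by
    intro b hb
    rw [hℓn b hb, hℓm, le_div_iff₀ (by have := hq0 b; positivity)]
    have e1 : ∑ v with b ∈ Q v, ν v ≤ H / (θ * n) := by
      calc ∑ v with b ∈ Q v, ν v ≤ ∑ v with b ∈ Q v, 1 / (θ * n) :=
            Finset.sum_le_sum fun v _ => hν1 v
        _ = #{v | b ∈ Q v} * (1 / (θ * n)) := by rw [Finset.sum_const, nsmul_eq_mul]
        _ ≤ H * (1 / (θ * n)) := by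
            have := hBgQ b hb
            gcongr
        _ = H / (θ * n) := by ring
    calc c * (θ * n) / (2 * H) * (∑ v with b ∈ Q v, ν v + ρ)
        ≤ c * (θ * n) / (2 * H) * (H / (θ * n) + H / (θ * n)) := by gcongr
      _ = c := by field_simp; ring
  obtain ⟨κ, hκ⟩ : ∃ κ : B → ℝ, κ = fun b => Real.exp (-ℓ b) := ⟨_, rfl⟩
  have hκ0 : ∀ b, 0 < κ b := fun b => by
    rw [hκ]
    exact Real.exp_pos _
  have hκ1 : ∀ b, κ b ≤ 1 := fun b => by
    rw [hκ]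
    exact Real.exp_le_one_iff.mpr (by linarith [hℓ0 b])
  have hκBg : ∀ b, κ b ≠ 1 → b ∉ Bg := by
    intro b hb hb2
    apply hb
    rw [hκ]
    show Real.exp (-ℓ b) = 1
    rw [hℓBg b hb2, neg_zero, Real.exp_zero]
  have hprod : ∀ S : Finset B, (∏ b ∈ S, κ b)⁻¹ = Real.exp (∑ b ∈ S, ℓ b) := by
    intro S
    rw [hκ, ← Real.exp_sum, ← Real.exp_neg, Finset.sum_neg_distrib, neg_neg]
  have hsm : ∀ u v, x u v ≠ 0 → ∑ b ∈ P u ∩ Q v, ℓ b ≤ τ₂ := hxs
  obtain ⟨K, hK⟩ : ∃ K : ℝ, K = 1 / ((1 - c * D / τ₁) * (θ * n)) := ⟨_, rfl⟩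
  have hK0 : 0 ≤ K := by
    rw [hK]
    positivity
  rw [← hK] at hxK
  obtain ⟨N, hN⟩ : ∃ N : ℝ, N = τ₂ / ℓm * H := ⟨_, rfl⟩
  have hN0 : 0 ≤ N := by
    rw [hN]
    have : 0 < τ₂ := by linarith
    positivity
  -- variances
  have hvr : ∀ u, Ex κ (fun T => (∑ v, x u v * ((∏ b ∈ P u ∩ Q v, κ b)⁻¹ *
      ind (P u ∩ Q v) T) - ∑ v, x u v) ^ 2) ≤ K * N * Real.exp τ₂ := by
    intro u
    apply var_bound κ hκ0 hκ1 (fun v => P u ∩ Q v) (fun v => x u v) (hx0 u) K _ N hK0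
      (Real.exp_pos _).le hN0 (hxK u) (hrow u)
    · intro v hv
      rw [hprod]
      exact Real.exp_le_exp.mpr (hsm u v hv)
    · intro v hv R hR
      rw [hN]
      apply count_close (P u ∩ Q v) Q Bg ℓ ℓm H τ₂ hℓm0 hH.le hℓ0 hℓge (hsm u v hv) hBgQ R
      intro j hj
      obtain ⟨b, hb, hb2, hb3⟩ := hR j hj
      exact ⟨b, hb, (Finset.mem_inter.mp hb2).2, hκBg b hb3⟩
  have hvc : ∀ v, Ex κ (fun T => (∑ u, x u v * ((∏ b ∈ P u ∩ Q v, κ b)⁻¹ *
      ind (P u ∩ Q v) T) - ∑ u, x u v) ^ 2) ≤ K * N * Real.exp τ₂ := by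
    intro v
    apply var_bound κ hκ0 hκ1 (fun u => P u ∩ Q v) (fun u => x u v) (fun u => hx0 u v) K _ N hK0
      (Real.exp_pos _).le hN0 (fun u => hxK u v) (hcol v)
    · intro u hu
      rw [hprod]
      exact Real.exp_le_exp.mpr (hsm u v hu)
    · intro u hu R hR
      rw [hN]
      apply count_close (P u ∩ Q v) P Bg ℓ ℓm H τ₂ hℓm0 hH.le hℓ0 hℓge (hsm u v hu) hBgP R
      intro j hj
      obtain ⟨b, hb, hb2, hb3⟩ := hR j hj
      exact ⟨b, hb, (Finset.mem_inter.mp hb2).1, hκBg b hb3⟩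
  -- pointwise inequality
  have hpt : ∀ T : Finset B, ∑ u, ∑ v, x u v * ((∏ b ∈ P u ∩ Q v, κ b)⁻¹ *
      ind (P u ∩ Q v) T) ≤ (1 + ε) * (#T : ℝ) + ((1 / ε ^ 2 + 1 / ε) *
      ∑ u, (∑ v, x u v * ((∏ b ∈ P u ∩ Q v, κ b)⁻¹ * ind (P u ∩ Q v) T) - ∑ v, x u v) ^ 2 +
      (1 / ε ^ 2 + 1 / ε) *
      ∑ v, (∑ u, x u v * ((∏ b ∈ P u ∩ Q v, κ b)⁻¹ * ind (P u ∩ Q v) T)
        - ∑ u, x u v) ^ 2) := by
    intro T
    apply mass_pointwise (fun u v => x u v * ((∏ b ∈ P u ∩ Q v, κ b)⁻¹ * ind (P u ∩ Q v) T))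
      ?_ (fun u v => P u ∩ Q v ⊆ T) ?_ (#T : ℝ) ?_ ε hε (fun u => ∑ v, x u v)
      (fun v => ∑ u, x u v) hrow hcol
    · intro u v
      have e1 := hx0 u v
      have e2 := prod_pos' hκ0 (P u ∩ Q v)
      have e3 : 0 ≤ ind (P u ∩ Q v) T := by
        unfold ind
        split_ifs <;> norm_num
      positivity
    · intro u v h
      by_contra hcc
      apply h
      unfold ind
      rw [if_neg hcc]
      ring
    · intro σ
      obtain ⟨f, hf, hf2⟩ := hpair σ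
      have e1 : #{u | P u ∩ Q (σ u) ⊆ T} ≤ #T := by
        apply Finset.card_le_card_of_injOn f
        · intro u hu
          have hu2 := (Finset.mem_filter.mp hu).2
          exact hu2 (Finset.mem_inter.mpr (hf2 u))
        · exact hf.injOn
      exact_mod_cast e1
  have hE := Ex_mono κ (fun b => (hκ0 b).le) hκ1 hpt
  have hC : 0 ≤ 1 / ε ^ 2 + 1 / ε := by positivity
  have hL : Ex κ (fun T => ∑ u, ∑ v, x u v * ((∏ b ∈ P u ∩ Q v, κ b)⁻¹ *
      ind (P u ∩ Q v) T)) = ∑ u, ∑ v, x u v := by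
    rw [Ex_sum]
    apply Finset.sum_congr rfl
    intro u _
    rw [Ex_sum]
    apply Finset.sum_congr rfl
    intro v _
    rw [Ex_smul, Ex_smul]
    rw [show Ex κ (fun T => ind (P u ∩ Q v) T) = ∏ b ∈ P u ∩ Q v, κ b from Ex_ind κ _]
    rw [inv_mul_cancel₀ (prod_pos' hκ0 _).ne', mul_one]
  rw [hL] at hE
  have hR : Ex κ (fun T => (1 + ε) * (#T : ℝ) + ((1 / ε ^ 2 + 1 / ε) *
      ∑ u, (∑ v, x u v * ((∏ b ∈ P u ∩ Q v, κ b)⁻¹ * ind (P u ∩ Q v) T) - ∑ v, x u v) ^ 2 +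
      (1 / ε ^ 2 + 1 / ε) *
      ∑ v, (∑ u, x u v * ((∏ b ∈ P u ∩ Q v, κ b)⁻¹ * ind (P u ∩ Q v) T)
        - ∑ u, x u v) ^ 2)) ≤ (1 + ε) * ∑ b, κ b +
      ((1 / ε ^ 2 + 1 / ε) * (n * (K * N * Real.exp τ₂)) +
      (1 / ε ^ 2 + 1 / ε) * (n * (K * N * Real.exp τ₂))) := by
    rw [Ex_add, Ex_add, Ex_smul, Ex_smul, Ex_smul, Ex_card, Ex_sum, Ex_sum]
    gcongr
    · calc ∑ u, Ex κ (fun T => (∑ v, x u v * ((∏ b ∈ P u ∩ Q v, κ b)⁻¹ *
            ind (P u ∩ Q v) T) - ∑ v, x u v) ^ 2) ≤ ∑ u : Fin n, K * N * Real.exp τ₂ :=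
            Finset.sum_le_sum fun u _ => hvr u
        _ = n * (K * N * Real.exp τ₂) := by
            rw [Finset.sum_const, Finset.card_univ, Fintype.card_fin, nsmul_eq_mul]
    · calc ∑ v, Ex κ (fun T => (∑ u, x u v * ((∏ b ∈ P u ∩ Q v, κ b)⁻¹ *
            ind (P u ∩ Q v) T) - ∑ u, x u v) ^ 2) ≤ ∑ u : Fin n, K * N * Real.exp τ₂ :=
            Finset.sum_le_sum fun v _ => hvc v
        _ = n * (K * N * Real.exp τ₂) := by
            rw [Finset.sum_const, Finset.card_univ, Fintype.card_fin, nsmul_eq_mul]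
  have hκsum : ∑ b, κ b ≤ 2 * n * D / H + (D + Fintype.card B * ρ) / (c * Real.exp 1) := by
    have e1 : ∀ b, κ b ≤ (if b ∈ Bg then 1 else 0) +
        ((∑ v with b ∈ Q v, ν v) + ρ) / (c * Real.exp 1) := by
      intro b
      have hq := hq0 b
      by_cases hb : b ∈ Bg
      · rw [if_pos hb]
        have := hκ1 b
        have e2 : 0 ≤ ((∑ v with b ∈ Q v, ν v) + ρ) / (c * Real.exp 1) := by positivity
        linarith
      · rw [if_neg hb, zero_add, hκ]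
        show Real.exp (-ℓ b) ≤ _
        have e2 : 0 < ℓ b := lt_of_lt_of_le hℓm0 (hℓge b hb)
        refine (exp_neg_le e2).trans (le_of_eq ?_)
        rw [hℓn b hb]
        field_simp
    calc ∑ b, κ b ≤ ∑ b, ((if b ∈ Bg then 1 else 0) +
        ((∑ v with b ∈ Q v, ν v) + ρ) / (c * Real.exp 1)) :=
          Finset.sum_le_sum fun b _ => e1 b
      _ = #Bg + (∑ v, ν v * #(Q v) + Fintype.card B * ρ) / (c * Real.exp 1) := by
          rw [Finset.sum_add_distrib, ← Finset.sum_div, Finset.sum_add_distrib, sum_wdeg]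
          simp
      _ ≤ 2 * n * D / H + (D + Fintype.card B * ρ) / (c * Real.exp 1) := by
          have e3 : ∑ v, ν v * #(Q v) ≤ D := by
            calc ∑ v, ν v * #(Q v) ≤ ∑ v, ν v * D :=
                  Finset.sum_le_sum fun v _ => mul_le_mul_of_nonneg_left (hQ v) (hν0 v)
              _ = (∑ v, ν v) * D := by rw [Finset.sum_mul]
              _ ≤ 1 * D := by gcongr
              _ = D := one_mul D
          gcongr
  calc (1 - θ) * n ≤ ∑ u, ∑ v, x u v := htot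
    _ ≤ _ := hE.trans hR
    _ ≤ (1 + ε) * (2 * n * D / H + (D + Fintype.card B * ρ) / (c * Real.exp 1)) +
      ((1 / ε ^ 2 + 1 / ε) * (n * (K * N * Real.exp τ₂)) +
      (1 / ε ^ 2 + 1 / ε) * (n * (K * N * Real.exp τ₂))) := by gcongr
    _ = _ := by
      rw [hK, hN, hℓm]
      ring

end

end Pool.Agent.Lib_helper37.VL
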