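import Mathlib
import Pool.Agent.Lib_helper37.VL.LO
import Pool.Agent.Lib_helper23.VLDefs
import Pool.Agent.Lib_helper23.VLProof

/-!
# The lower bound with the constant `√(e/2)`
-/

open Finset Filter Topology Pool.Agent.Lib_helper23.VanLint

namespace Pool.Agent.Lib_helper37.VL

lemma tendsto_sqrt_exp (δ : ℝ) (hδ : 0 < δ) :
    Tendsto (fun n : ℕ => Real.sqrt (Real.log n) / Real.exp (δ * Real.log n)) atTop (𝓝 0) := by
  have h := tendsto_rpow_mul_exp_neg_mul_atTop_nhds_zero (1/2) δ hδ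
  have h2 : Tendsto (fun n : ℕ => Real.log (n:ℝ)) atTop atTop :=
    Real.tendsto_log_atTop.comp tendsto_natCast_atTop_atTop
  refine (h.comp h2).congr fun n => ?_
  show Real.log n ^ (1/2 : ℝ) * Real.exp (-δ * Real.log n) = _
  rw [← Real.sqrt_eq_rpow, neg_mul, Real.exp_neg]
  rfl

lemma num7 {g : ℝ} (hg0 : 0 < g) (hg1 : g < 1) :
    (1 - g) / 2 + g / 16 ≤ (1 - g / 2) * (1 / 2 - 4 * (g / 64)) * (1 - g / 4) := by
  nlinarith [mul_pos hg0 hg0, mul_pos (mul_pos hg0 hg0) (sub_pos.mpr hg1)]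

lemma num3 {g : ℝ} (hg0 : 0 < g) :
    (1 + g / 16) * (1 - g / 4) + g / 8 ≤ 1 - g / 16 := by
  nlinarith [mul_pos hg0 hg0]

/-- The numerical contradiction. -/
lemma numeric {n : ℕ} {g a A s p q : ℝ} {m : ℕ} (hn : 0 < n) (hg0 : 0 < g) (hg1 : g < 1)
    (hA0 : 0 < A) (hA : A ^ 2 = a) (ha : a = (1 - g) * Real.exp 1 / 2)
    (hs : s = Real.exp (Real.log n / 2)) (hp : p = Real.exp (g / 64 * Real.log n))
    (hq : q = Real.sqrt (Real.log n)) (hlog : 8 / g ≤ Real.log n)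
    (hsmall : ((1 + g / 16) * (2 * A) + 2 * (1 / (g / 16) ^ 2 + 1 / (g / 16)) *
      (2 * Real.exp 1 / (g * (g / 16) ^ 2 * A))) * (q / p) < g / 8)
    (P Q : Fin n → Finset (Fin m)) (hP : ∀ u, (#(P u) : ℝ) ≤ A * s * q)
    (hQ : ∀ v, (#(Q v) : ℝ) ≤ A * s * q)
    (hpair : ∀ σ : Equiv.Perm (Fin n), ∃ f : Fin n → Fin m, Function.Injective f ∧
      ∀ u, f u ∈ P u ∧ f u ∈ Q (σ u)) : False := by
  have hn' : (0:ℝ) < n := by exact_mod_cast hn
  have hL8 : 8 < Real.log n := by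
    refine lt_of_lt_of_le ?_ hlog
    rw [lt_div_iff₀ hg0]
    linarith
  have hL0 : 0 < Real.log n := by linarith
  have hs0 : 0 < s := by rw [hs]; exact Real.exp_pos _
  have hp0 : 0 < p := by rw [hp]; exact Real.exp_pos _
  have hp1 : 1 ≤ p := by
    rw [hp]
    apply Real.one_le_exp
    positivity
  have hq0 : 0 < q := by rw [hq]; exact Real.sqrt_pos.mpr hL0
  have hq2 : q ^ 2 = Real.log n := by rw [hq, Real.sq_sqrt hL0.le]
  have hs2 : s ^ 2 = n := by
    rw [hs, ← Real.exp_nat_mul]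
    push_cast
    rw [mul_div_cancel₀ _ (two_ne_zero), Real.exp_log hn']
  have he : 2.7182818283 < Real.exp 1 := Real.exp_one_gt_d9
  have he2 : Real.exp 1 < 2.7182818286 := Real.exp_one_lt_d9
  have he0 : 0 < Real.exp 1 := Real.exp_pos _
  obtain ⟨κ, hκ⟩ : ∃ κ : ℝ, κ = 1 - g / 4 := ⟨_, rfl⟩
  have hκ0 : 0 < κ := by rw [hκ]; linarith
  have hκ1 : κ ≤ 1 := by rw [hκ]; linarith
  obtain ⟨D, hD⟩ : ∃ D : ℝ, D = A * s * q := ⟨_, rfl⟩
  have hD0 : 0 < D := by rw [hD]; positivity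
  obtain ⟨c, hc⟩ : ∃ c : ℝ, c = (D + 1) / (Real.exp 1 * n * κ) := ⟨_, rfl⟩
  have hc0 : 0 < c := by rw [hc]; positivity
  obtain ⟨ρ, hρ⟩ : ∃ ρ : ℝ, ρ = 1 / ((m:ℝ) + n) := ⟨_, rfl⟩
  have hρ0 : 0 < ρ := by rw [hρ]; positivity
  have hmρ : (m:ℝ) * ρ ≤ 1 := by
    rw [hρ, mul_one_div, div_le_one (by positivity)]
    linarith
  have hρn : ρ ≤ 1 / n := by
    rw [hρ]
    apply one_div_le_one_div_of_le hn'
    linarith [(Nat.cast_nonneg m : (0:ℝ) ≤ m)]
  obtain ⟨H, hH⟩ : ∃ H : ℝ, H = s * p := ⟨_, rfl⟩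
  have hs1 : 1 ≤ s := by
    rw [hs]
    apply Real.one_le_exp
    positivity
  have hH1 : 1 ≤ H := by
    rw [hH]
    exact one_le_mul_of_one_le_of_one_le hs1 hp1
  have hH0 : 0 < H := by linarith
  obtain ⟨τ₁, hτ₁⟩ : ∃ τ₁ : ℝ, τ₁ = (1/2 - 4 * (g/64)) * Real.log n := ⟨_, rfl⟩
  obtain ⟨τ₂, hτ₂⟩ : ∃ τ₂ : ℝ, τ₂ = (1/2 - 3 * (g/64)) * Real.log n := ⟨_, rfl⟩
  have h1 : 0 < τ₁ := by
    rw [hτ₁]
    apply mul_pos _ hL0
    linarith
  have h2 : τ₁ < τ₂ := by
    rw [hτ₁, hτ₂]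
    apply mul_lt_mul_of_pos_right _ hL0
    linarith
  have hτ₂' : τ₂ ≤ q ^ 2 / 2 := by
    rw [hτ₂, hq2]
    have := mul_pos hg0 hL0
    linarith
  -- `c D` against `τ₁`
  have hDn : D ≤ n := by
    have h3 : D ^ 2 ≤ (n:ℝ) ^ 2 := by
      have h4 : D ^ 2 = a * n * Real.log n := by
        rw [hD, mul_pow, mul_pow, hA, hs2, hq2]
      have h5 : Real.log n ≤ n / Real.exp 1 := by
        have h6 := Real.add_one_le_exp (Real.log n - 1)
        rw [Real.exp_sub, Real.exp_log hn'] at h6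
        linarith
      have ha1 : a ≤ Real.exp 1 := by
        rw [ha]
        have := mul_pos hg0 he0
        linarith
      have ha0 : 0 ≤ a := by
        rw [← hA]
        positivity
      rw [h4]
      calc a * n * Real.log n ≤ Real.exp 1 * n * (n / Real.exp 1) := by gcongr
        _ = (n:ℝ) ^ 2 := by field_simp
    exact le_of_sq_le_sq h3 hn'.le
  have hcD : c * D ≤ (1 - g / 2) * τ₁ := by
    have h3 : c * D = (D ^ 2 + D) / (Real.exp 1 * n * κ) := by
      rw [hc]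
      ring
    rw [h3, div_le_iff₀ (by positivity)]
    have h4 : D ^ 2 = (1 - g) * Real.exp 1 / 2 * n * Real.log n := by
      rw [hD, mul_pow, mul_pow, hA, hs2, hq2, ha]
    rw [h4]
    have h5 : D ≤ Real.exp 1 * n * ((g / 16) * Real.log n) := by
      have h6 : (1:ℝ)/2 ≤ g / 16 * Real.log n := by
        have : 8 / g * (g / 16) ≤ Real.log n * (g / 16) := by gcongr
        have e : 8 / g * (g / 16) = 1 / 2 := by field_simp; norm_num
        linarith
      calc D ≤ n := hDn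
        _ ≤ 2 * n * (1/2) := by linarith
        _ ≤ Real.exp 1 * n * (g / 16 * Real.log n) := by
            gcongr
            linarith
    have h7 : (1 - g) / 2 + g / 16 ≤ (1 - g / 2) * (1 / 2 - 4 * (g / 64)) * κ := by
      rw [hκ]
      exact num7 hg0 hg1
    calc (1 - g) * Real.exp 1 / 2 * n * Real.log n + D
        ≤ (1 - g) * Real.exp 1 / 2 * n * Real.log n +
          Real.exp 1 * n * ((g / 16) * Real.log n) := by linarith
      _ = ((1 - g) / 2 + g / 16) * (Real.exp 1 * n * Real.log n) := by ring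
      _ ≤ (1 - g / 2) * (1 / 2 - 4 * (g / 64)) * κ * (Real.exp 1 * n * Real.log n) := by gcongr
      _ = (1 - g / 2) * τ₁ * (Real.exp 1 * n * κ) := by
        rw [hτ₁]
        ring
  have hη : c * D < τ₁ := by
    have := mul_pos hg0 h1
    linarith
  have hηg : g / 2 ≤ 1 - c * D / τ₁ := by
    have : c * D / τ₁ ≤ 1 - g / 2 := by
      rw [div_le_iff₀ h1]
      exact hcD
    linarith
  obtain ⟨θ, hθ⟩ : ∃ θ : ℝ, θ = g / 16 := ⟨_, rfl⟩
  have hθ0 : 0 < θ := by rw [hθ]; positivity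
  have hθ1 : θ ≤ 1 := by rw [hθ]; linarith
  have hρH : ρ ≤ H / (θ * n) := by
    refine hρn.trans ?_
    rw [div_le_div_iff₀ hn' (by positivity)]
    have e1 : θ * (n:ℝ) ≤ 1 * n := by gcongr
    have e2 : 1 * (n:ℝ) ≤ H * n := by gcongr
    linarith
  have key := lower_ineq hn P Q D (by rw [hD]; exact hP) (by rw [hD]; exact hQ) hpair
    c ρ θ τ₁ τ₂ H θ hc0 hρ0 hθ0 h1 h2 hη hH0 hθ0 hρH
  rw [Fintype.card_fin] at key
  -- the three terms
  have hX1 : 2 * n * D / H = n * (2 * A * (q / p)) := by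
    rw [hD, hH]
    field_simp
  have hX2 : (D + m * ρ) / (c * Real.exp 1) ≤ n * κ := by
    rw [div_le_iff₀ (by positivity), hc]
    have e1 : n * κ * ((D + 1) / (Real.exp 1 * n * κ) * Real.exp 1) = D + 1 := by
      field_simp
    rw [e1]
    linarith
  have hM : Real.exp τ₂ = s / p ^ 3 := by
    rw [hτ₂, hs, hp, ← Real.exp_nat_mul, ← Real.exp_sub]
    congr 1
    push_cast
    ring
  have hX3 : 1 / ((1 - c * D / τ₁) * (θ * n)) *
        (τ₂ / (c * (θ * n) / (2 * H)) * H) * Real.exp τ₂ ≤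
        2 * Real.exp 1 / (g * θ ^ 2 * A) * (q / p) := by
    have hc1 : A * q / (Real.exp 1 * s) ≤ c := by
      rw [hc, div_le_div_iff₀ (by positivity) (by positivity)]
      have e1 : A * q * (Real.exp 1 * n * κ) ≤ A * q * (Real.exp 1 * n * 1) := by gcongr
      have e2 : A * q * (Real.exp 1 * n * 1) = D * (Real.exp 1 * s) := by
        rw [hD, ← hs2]
        ring
      have e3 : D * (Real.exp 1 * s) ≤ (D + 1) * (Real.exp 1 * s) := by
        gcongr
        linarith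
      linarith
    have hτ₂0 : 0 < τ₂ := by linarith
    rw [hM]
    calc 1 / ((1 - c * D / τ₁) * (θ * n)) *
        (τ₂ / (c * (θ * n) / (2 * H)) * H) * (s / p ^ 3)
        ≤ 1 / ((g / 2) * (θ * n)) *
        ((q ^ 2 / 2) / (A * q / (Real.exp 1 * s) * (θ * n) / (2 * H)) * H) * (s / p ^ 3) := by
          gcongr
      _ = 2 * Real.exp 1 / (g * θ ^ 2 * A) * (q / p) := by
          rw [hH, ← hs2]
          field_simp
          try ring
  have hC0 : 0 ≤ 1 / θ ^ 2 + 1 / θ := by positivity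
  have hfin : (1 - θ) * n ≤ (1 + θ) * (n * (2 * A * (q / p)) + n * κ) +
      2 * (1 / θ ^ 2 + 1 / θ) * n * (2 * Real.exp 1 / (g * θ ^ 2 * A) * (q / p)) := by
    refine key.trans ?_
    rw [hX1]
    have h1θ : 0 ≤ 1 + θ := by linarith
    gcongr
  have hfin2 : 1 - θ ≤ (1 + θ) * (2 * A * (q / p) + κ) +
      2 * (1 / θ ^ 2 + 1 / θ) * (2 * Real.exp 1 / (g * θ ^ 2 * A) * (q / p)) := by
    have e1 : (1 + θ) * (n * (2 * A * (q / p)) + n * κ) +
      2 * (1 / θ ^ 2 + 1 / θ) * n * (2 * Real.exp 1 / (g * θ ^ 2 * A) * (q / p))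
      = ((1 + θ) * (2 * A * (q / p) + κ) +
      2 * (1 / θ ^ 2 + 1 / θ) * (2 * Real.exp 1 / (g * θ ^ 2 * A) * (q / p))) * n := by ring
    rw [e1] at hfin
    exact le_of_mul_le_mul_right hfin hn'
  rw [← hθ] at hsmall
  have e2 : (1 + θ) * (2 * A * (q / p) + κ) +
      2 * (1 / θ ^ 2 + 1 / θ) * (2 * Real.exp 1 / (g * θ ^ 2 * A) * (q / p))
      = ((1 + θ) * (2 * A) + 2 * (1 / θ ^ 2 + 1 / θ) *
      (2 * Real.exp 1 / (g * θ ^ 2 * A))) * (q / p) + (1 + θ) * κ := by ring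
  rw [e2] at hfin2
  have e3 : (1 + θ) * κ + g / 8 ≤ 1 - θ := by
    rw [hθ, hκ]
    exact num3 hg0
  linarith

/-- **Lower bound for two families**, with the constant `e/2`. -/
theorem bip_lower (a : ℝ) (ha0 : 0 < a) (ha : a < Real.exp 1 / 2) :
    ∀ᶠ n : ℕ in atTop, ∀ (m : ℕ) (P Q : Fin n → Finset (Fin m)),
      (∀ u, (#(P u) : ℝ) ≤ Real.sqrt a * Real.sqrt (n * Real.log n)) →
      (∀ v, (#(Q v) : ℝ) ≤ Real.sqrt a * Real.sqrt (n * Real.log n)) →
      ¬ ∀ σ : Equiv.Perm (Fin n), ∃ f : Fin n → Fin m, Function.Injective f ∧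
        ∀ u, f u ∈ P u ∧ f u ∈ Q (σ u) := by
  obtain ⟨g, hg⟩ : ∃ g : ℝ, g = 1 - 2 * a / Real.exp 1 := ⟨_, rfl⟩
  have he0 : 0 < Real.exp 1 := Real.exp_pos _
  have hg0 : 0 < g := by
    rw [hg, sub_pos, div_lt_one he0]
    linarith
  have hg1 : g < 1 := by
    rw [hg]
    have : 0 < 2 * a / Real.exp 1 := by positivity
    linarith
  have hag : a = (1 - g) * Real.exp 1 / 2 := by
    rw [hg]
    field_simp
    ring
  have hA0 : 0 < Real.sqrt a := Real.sqrt_pos.mpr ha0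
  have hA : Real.sqrt a ^ 2 = a := Real.sq_sqrt ha0.le
  have ht := tendsto_sqrt_exp (g / 64) (by positivity)
  have ht2 := ht.const_mul ((1 + g / 16) * (2 * Real.sqrt a) +
    2 * (1 / (g / 16) ^ 2 + 1 / (g / 16)) *
      (2 * Real.exp 1 / (g * (g / 16) ^ 2 * Real.sqrt a)))
  rw [mul_zero] at ht2
  have h2 : Tendsto (fun n : ℕ => Real.log (n:ℝ)) atTop atTop :=
    Real.tendsto_log_atTop.comp tendsto_natCast_atTop_atTop
  filter_upwards [eventually_gt_atTop 0, ht2.eventually_lt_const (u := g / 8) (by positivity),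
    h2.eventually_ge_atTop (8 / g)] with n hn hsm hlg m P Q hP hQ hpair
  have hn' : (0:ℝ) < n := by exact_mod_cast hn
  have hsq : Real.sqrt (n * Real.log n) = Real.exp (Real.log n / 2) * Real.sqrt (Real.log n) := by
    rw [Real.sqrt_mul hn'.le]
    congr 1
    rw [← Real.exp_log hn', Real.log_exp, Real.sqrt_eq_rpow, ← Real.exp_mul]
    congr 1
    ring
  rw [hsq, ← mul_assoc] at hP hQ
  exact numeric hn hg0 hg1 hA0 hA hag rfl rfl rfl hlg hsm P Q hP hQ hpair

/-- **Lower bound for `λ(n)`**, with the constant `√(e/2)`. -/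
theorem lam_lower (ε : ℝ) (hε : 0 < ε) : ∀ᶠ n : ℕ in atTop,
    (Real.sqrt (Real.exp 1 / 2) - ε) * Real.sqrt (n * Real.log n) ≤ (lam n : ℝ) := by
  classical
  rcases le_or_gt (Real.sqrt (Real.exp 1 / 2)) ε with h | h
  · filter_upwards with n
    have h1 : (Real.sqrt (Real.exp 1 / 2) - ε) * Real.sqrt (n * Real.log n) ≤ 0 :=
      mul_nonpos_of_nonpos_of_nonneg (by linarith) (Real.sqrt_nonneg _)
    exact h1.trans (Nat.cast_nonneg _)
  · obtain ⟨A, hA⟩ : ∃ A : ℝ, A = Real.sqrt (Real.exp 1 / 2) - ε := ⟨_, rfl⟩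
    have hA0 : 0 < A := by rw [hA]; linarith
    have he0 : 0 < Real.exp 1 := Real.exp_pos _
    have hA2 : A ^ 2 < Real.exp 1 / 2 := by
      have h1 : A < Real.sqrt (Real.exp 1 / 2) := by rw [hA]; linarith
      have h2 : A ^ 2 < Real.sqrt (Real.exp 1 / 2) ^ 2 := pow_lt_pow_left₀ h1 hA0.le two_ne_zero
      rwa [Real.sq_sqrt (by positivity)] at h2
    have hb := bip_lower (A ^ 2) (by positivity) hA2
    rw [Real.sqrt_sq hA0.le] at hb
    filter_upwards [hb] with n hn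
    rw [← hA]
    by_contra hlt
    push Not at hlt
    obtain ⟨m, hm, G, hG, hGd⟩ := lam_attained n
    have hcard : ∀ a : Fin (2 * n), #{b : Fin m | G a b} ≤ lam n := by
      intro a
      have h1 : Nat.card {b : Fin m // G a b} ≤ maxDegA G :=
        Finset.le_sup (f := fun a : Fin (2 * n) => Nat.card {b : Fin m // G a b})
          (Finset.mem_univ a)
      rw [Nat.card_eq_fintype_card, Fintype.card_subtype] at h1
      exact h1.trans hGd.le
    have hcard' : ∀ a : Fin (2 * n), (#{b : Fin m | G a b} : ℝ) ≤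
        A * Real.sqrt (n * Real.log n) := by
      intro a
      have h1 : (#{b : Fin m | G a b} : ℝ) ≤ lam n := by exact_mod_cast hcard a
      exact h1.trans hlt.le
    obtain ⟨e₀, he₀⟩ : ∃ e₀ : Fin n × Bool ≃ Fin (2 * n), e₀ = baseEquiv n := ⟨_, rfl⟩
    apply hn m
      (fun x : Fin n => ({b : Fin m | G (e₀ (x, false)) b} : Finset (Fin m)))
      (fun y : Fin n => ({b : Fin m | G (e₀ (y, true)) b} : Finset (Fin m)))
      (fun x => hcard' _) (fun y => hcard' _)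
    intro σ
    let τ : Fin n × Bool ≃ Fin n × Bool :=
      { toFun := fun q => if q.2 then (σ q.1, true) else (q.1, false)
        invFun := fun q => if q.2 then (σ.symm q.1, true) else (q.1, false)
        left_inv := by
          rintro ⟨x, t⟩
          cases t <;> simp
        right_inv := by
          rintro ⟨x, t⟩
          cases t <;> simp }
    obtain ⟨f, hf, hf2⟩ := hG (τ.trans e₀)
    refine ⟨f, hf, fun x => ?_⟩
    have h := hf2 x
    simp only [τ, Equiv.trans_apply, Equiv.coe_fn_mk, Bool.false_eq_true, if_false, if_true] at h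
    simp only [Finset.mem_filter, Finset.mem_univ, true_and]
    exact h

end Pool.Agent.Lib_helper37.VL
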