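import Mathlib
import Pool.Agent.Lib_helper23.VLDefs
import Pool.Agent.Lib_helper23.VLUpper
import Pool.Agent.Lib_helper23.VLProof

/-!
# Upper bound: random points in several affine planes
-/

open Finset Pool.Agent.Lib_helper23.VanLint

namespace Pool.Agent.Lib_helper37.VL

/-- a choice of one point in each of `L` affine planes -/
abbrev Pt (L p : ℕ) := Fin L → ZMod p × ZMod p

/-- the non-vertical lines of `L` affine planes -/
abbrev Ln (L p : ℕ) := Fin L × ZMod p × ZMod p

/-- incidence -/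
def onLine {L p : ℕ} (u : Pt L p) (b : Ln L p) : Prop :=
  (u b.1).2 - b.2.1 * (u b.1).1 = b.2.2

instance {L p : ℕ} (u : Pt L p) (b : Ln L p) : Decidable (onLine u b) :=
  inferInstanceAs (Decidable ((u b.1).2 - b.2.1 * (u b.1).1 = b.2.2))

section
variable {p : ℕ} [Fact p.Prime]

lemma plane_count (T : Finset (ZMod p × ZMod p)) :
    Fintype.card {r : (ZMod p × ZMod p) × (ZMod p × ZMod p) //
      ∀ m, r.1.2 - m * r.1.1 = r.2.2 - m * r.2.1 → (m, r.1.2 - m * r.1.1) ∈ T} ≤
      #T * p ^ 2 + p ^ 3 := by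
  classical
  rw [Fintype.card_subtype]
  have hcard : Fintype.card (ZMod p) = p := ZMod.card p
  have h1 : (Finset.univ.filter fun r : (ZMod p × ZMod p) × (ZMod p × ZMod p) =>
      ∀ m, r.1.2 - m * r.1.1 = r.2.2 - m * r.2.1 → (m, r.1.2 - m * r.1.1) ∈ T) ⊆
      (T ×ˢ (univ : Finset (ZMod p × ZMod p))).image
        (fun w => ((w.2.1, w.1.2 + w.1.1 * w.2.1), (w.2.2, w.1.2 + w.1.1 * w.2.2))) ∪
      (univ : Finset (ZMod p × ZMod p × ZMod p)).image
        (fun w => ((w.1, w.2.1), (w.1, w.2.2))) := by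
    rintro ⟨⟨x, y⟩, ⟨x', y'⟩⟩ hr
    rw [Finset.mem_filter] at hr
    have hr2 := hr.2
    simp only at hr2
    rw [Finset.mem_union, Finset.mem_image, Finset.mem_image]
    by_cases hx : x = x'
    · right
      exact ⟨(x, y, y'), Finset.mem_univ _, by rw [hx]⟩
    · left
      have hx' : x - x' ≠ 0 := sub_ne_zero.mpr hx
      obtain ⟨m, hm⟩ : ∃ m : ZMod p, m * (x - x') = y - y' := ⟨(y - y') / (x - x'), by
        field_simp⟩
      have h2 : y - m * x = y' - m * x' := by linear_combination (-1 : ZMod p) * hm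
      have h3 := hr2 m h2
      refine ⟨((m, y - m * x), (x, x')), ?_, ?_⟩
      · rw [Finset.mem_product]
        exact ⟨h3, Finset.mem_univ _⟩
      · simp only [Prod.mk.injEq, true_and]
        constructor
        · ring
        · rw [h2]
          ring
  refine (Finset.card_le_card h1).trans ((Finset.card_union_le _ _).trans ?_)
  apply Nat.add_le_add
  · refine Finset.card_image_le.trans ?_
    rw [Finset.card_product, Finset.card_univ, Fintype.card_prod, hcard, sq]
  · refine Finset.card_image_le.trans ?_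
    rw [Finset.card_univ, Fintype.card_prod, Fintype.card_prod, hcard]
    exact le_of_eq (by ring)

/-- arithmetic-geometric mean, in product form -/
lemma prod_le_avg {L : ℕ} (a : Fin L → ℝ) (ha : ∀ i, 0 ≤ a i) (c : ℝ) (hc : 0 < c)
    (hsum : ∑ i, a i ≤ L * c) : ∏ i, a i ≤ c ^ L := by
  have h1 : ∀ i, a i ≤ c * Real.exp (a i / c - 1) := by
    intro i
    have := Real.add_one_le_exp (a i / c - 1)
    calc a i = c * (a i / c - 1 + 1) := by field_simp; ring
      _ ≤ c * Real.exp (a i / c - 1) := by gcongr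
  calc ∏ i, a i ≤ ∏ i, c * Real.exp (a i / c - 1) :=
        Finset.prod_le_prod (fun i _ => ha i) (fun i _ => h1 i)
    _ = c ^ L * Real.exp (∑ i, (a i / c - 1)) := by
        rw [Finset.prod_mul_distrib, Real.exp_sum]
        simp
    _ ≤ c ^ L * 1 := by
        have h2 : ∑ i, (a i / c - 1) ≤ 0 := by
          rw [Finset.sum_sub_distrib, ← Finset.sum_div]
          have h3 : (∑ i, a i) / c ≤ L := by
            rw [div_le_iff₀ hc]
            exact hsum
          simp only [Finset.sum_const, Finset.card_univ, Fintype.card_fin, nsmul_eq_mul, mul_one]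
          linarith
        have h4 := Real.exp_le_one_iff.mpr h2
        gcongr
    _ = c ^ L := mul_one _

lemma pairs_count {L : ℕ} (hL : 0 < L) (T : Finset (Ln L p)) :
    (Nat.card {q : Pt L p × Pt L p //
      ∀ b : Ln L p, onLine q.1 b → onLine q.2 b → b ∈ T} : ℝ) ≤
      ((p:ℝ) ^ (2 * L)) ^ 2 * ((#T : ℝ) / (L * p ^ 2) + 1 / p) ^ L := by
  classical
  have hp0 : (0:ℝ) < p := by exact_mod_cast (Fact.out : p.Prime).pos
  have hL0 : (0:ℝ) < L := by exact_mod_cast hL
  rw [Nat.card_eq_fintype_card]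
  obtain ⟨Ti, hTi⟩ : ∃ Ti : Fin L → Finset (ZMod p × ZMod p),
    Ti = fun i => Finset.univ.filter (fun w => (i, w) ∈ T) := ⟨_, rfl⟩
  have h1 : Fintype.card {q : Pt L p × Pt L p //
      ∀ b : Ln L p, onLine q.1 b → onLine q.2 b → b ∈ T} ≤
      Fintype.card (∀ i : Fin L, {r : (ZMod p × ZMod p) × (ZMod p × ZMod p) //
      ∀ m, r.1.2 - m * r.1.1 = r.2.2 - m * r.2.1 → (m, r.1.2 - m * r.1.1) ∈ Ti i}) := by
    apply Fintype.card_le_of_injective
      (fun q : {q : Pt L p × Pt L p //
        ∀ b : Ln L p, onLine q.1 b → onLine q.2 b → b ∈ T} =>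
        (fun i => ⟨(q.1.1 i, q.1.2 i), by
          intro m hm
          rw [hTi]
          simp only [Finset.mem_filter, Finset.mem_univ, true_and]
          exact q.2 (i, m, (q.1.1 i).2 - m * (q.1.1 i).1) rfl hm.symm⟩ :
          ∀ i : Fin L, {r : (ZMod p × ZMod p) × (ZMod p × ZMod p) //
      ∀ m, r.1.2 - m * r.1.1 = r.2.2 - m * r.2.1 → (m, r.1.2 - m * r.1.1) ∈ Ti i}))
    intro q q' h
    apply Subtype.ext
    apply Prod.ext
    · funext j
      have := congrFun h j
      simp only [Subtype.mk.injEq, Prod.mk.injEq] at this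
      exact this.1
    · funext j
      have := congrFun h j
      simp only [Subtype.mk.injEq, Prod.mk.injEq] at this
      exact this.2
  rw [Fintype.card_pi] at h1
  have h2 : Fintype.card {q : Pt L p × Pt L p //
      ∀ b : Ln L p, onLine q.1 b → onLine q.2 b → b ∈ T} ≤
      ∏ i, (#(Ti i) * p ^ 2 + p ^ 3) :=
    h1.trans (Finset.prod_le_prod' fun i _ => plane_count (Ti i))
  have h3 : ∑ i, #(Ti i) = #T := by
    have e1 : #T = ∑ i : Fin L, ∑ w : ZMod p × ZMod p, if (i, w) ∈ T then 1 else 0 := by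
      rw [← Fintype.sum_prod_type (f := fun q : Fin L × (ZMod p × ZMod p) =>
        if q ∈ T then 1 else 0)]
      rw [Finset.card_eq_sum_ones, ← Finset.sum_filter]
      apply Finset.sum_congr _ fun _ _ => rfl
      ext q
      simp
    rw [e1]
    apply Finset.sum_congr rfl
    intro i _
    rw [hTi]
    simp only
    rw [Finset.card_filter]
  have h4 : (∏ i, ((#(Ti i) : ℝ) * p ^ 2 + p ^ 3)) ≤
      ((p:ℝ) ^ 4 * ((#T : ℝ) / (L * p ^ 2) + 1 / p)) ^ L := by
    apply prod_le_avg
    · intro i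
      positivity
    · positivity
    · rw [Finset.sum_add_distrib, ← Finset.sum_mul]
      have e2 : ∑ i, (#(Ti i) : ℝ) = #T := by exact_mod_cast h3
      rw [e2]
      simp only [Finset.sum_const, Finset.card_univ, Fintype.card_fin, nsmul_eq_mul]
      apply le_of_eq
      field_simp
  calc (Fintype.card {q : Pt L p × Pt L p //
      ∀ b : Ln L p, onLine q.1 b → onLine q.2 b → b ∈ T} : ℝ)
      ≤ ((∏ i, (#(Ti i) * p ^ 2 + p ^ 3) : ℕ) : ℝ) := by exact_mod_cast h2
    _ = ∏ i, ((#(Ti i) : ℝ) * p ^ 2 + p ^ 3) := by push_cast; rfl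
    _ ≤ ((p:ℝ) ^ 4 * ((#T : ℝ) / (L * p ^ 2) + 1 / p)) ^ L := h4
    _ = ((p:ℝ) ^ (2 * L)) ^ 2 * ((#T : ℝ) / (L * p ^ 2) + 1 / p) ^ L := by
        rw [mul_pow]
        congr 1
        rw [← pow_mul, ← pow_mul]
        congr 1
        ring

lemma card_bad2 {n L k : ℕ} (hL : 0 < L) (hk : k ≤ n)
    (ε : Fin k × Bool → Fin (2 * n)) (hε : Function.Injective ε) (T : Finset (Ln L p)) :
    (Nat.card {φ : Fin (2 * n) → Pt L p // ∀ i : Fin k,
      ∀ b : Ln L p, onLine (φ (ε (i, false))) b → onLine (φ (ε (i, true))) b → b ∈ T} : ℝ) ≤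
    ((p : ℝ) ^ (2 * L)) ^ (2 * n) * (((#T : ℝ) / (L * p ^ 2) + 1 / p) ^ L) ^ k := by
  classical
  have h1 := card_constrained (A := Fin (2 * n)) (V := Pt L p) ε hε
    (fun u v => ∀ b : Ln L p, onLine u b → onLine v b → b ∈ T)
  have h2 := pairs_count hL T
  simp only [← Nat.card_eq_fintype_card] at h1
  have hV : (Nat.card (Pt L p) : ℝ) = (p:ℝ) ^ (2 * L) := by
    rw [Nat.card_eq_fintype_card, Fintype.card_fun, Fintype.card_prod, ZMod.card, Fintype.card_fin]
    push_cast
    rw [← sq, ← pow_mul]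
  have hp0 : (0:ℝ) < p := by exact_mod_cast (Fact.out : p.Prime).pos
  have hL0 : (0:ℝ) < L := by exact_mod_cast hL
  have hq0 : 0 ≤ (#T : ℝ) / (L * p ^ 2) + 1 / p := by positivity
  calc (Nat.card {φ : Fin (2 * n) → Pt L p // ∀ i : Fin k,
      ∀ b : Ln L p, onLine (φ (ε (i, false))) b → onLine (φ (ε (i, true))) b → b ∈ T} : ℝ) ≤
      ((Nat.card {q : Pt L p × Pt L p //
      ∀ b : Ln L p, onLine q.1 b → onLine q.2 b → b ∈ T} ^ k *
        Nat.card (Pt L p) ^ (Nat.card (Fin (2 * n)) - 2 * k) : ℕ) : ℝ) := by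
        exact_mod_cast h1
    _ = (Nat.card {q : Pt L p × Pt L p //
      ∀ b : Ln L p, onLine q.1 b → onLine q.2 b → b ∈ T} : ℝ) ^ k *
        ((p:ℝ) ^ (2 * L)) ^ (2 * n - 2 * k) := by
        rw [Nat.cast_mul, Nat.cast_pow, Nat.cast_pow, hV, Nat.card_fin]
    _ ≤ (((p:ℝ) ^ (2 * L)) ^ 2 * ((#T : ℝ) / (L * p ^ 2) + 1 / p) ^ L) ^ k *
        ((p:ℝ) ^ (2 * L)) ^ (2 * n - 2 * k) := by
        gcongr
    _ = ((p : ℝ) ^ (2 * L)) ^ (2 * n) * (((#T : ℝ) / (L * p ^ 2) + 1 / p) ^ L) ^ k := by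
        rw [mul_pow, ← pow_mul _ 2 k]
        have : ((p:ℝ) ^ (2 * L)) ^ (2 * n) =
            ((p:ℝ) ^ (2 * L)) ^ (2 * k) * ((p:ℝ) ^ (2 * L)) ^ (2 * n - 2 * k) := by
          rw [← pow_add]
          congr 1
          omega
        rw [this]
        ring

end

/-- `n choose k` against `(e n / k)^k` -/
lemma choose_le_exp (N k : ℕ) (hk : 0 < k) :
    ((N.choose k : ℕ) : ℝ) ≤ (N * Real.exp 1 / k) ^ k := by
  have hk0 : (0:ℝ) < k := by exact_mod_cast hk
  have h1 : ((N.choose k : ℕ) : ℝ) ≤ (N:ℝ) ^ k / (k.factorial : ℝ) := Nat.choose_le_pow_div k N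
  have h2 : (k:ℝ) ^ k / (k.factorial : ℝ) ≤ Real.exp k := Real.pow_div_factorial_le_exp _ hk0.le k
  have hf : (0:ℝ) < k.factorial := by exact_mod_cast k.factorial_pos
  have h3 : 1 / (k.factorial : ℝ) ≤ (Real.exp 1 / k) ^ k := by
    rw [div_pow, ← Real.exp_nat_mul, mul_one, le_div_iff₀ (by positivity)]
    calc 1 / (k.factorial : ℝ) * (k:ℝ) ^ k = (k:ℝ) ^ k / (k.factorial : ℝ) := by ring
      _ ≤ Real.exp k := h2
  calc ((N.choose k : ℕ) : ℝ) ≤ (N:ℝ) ^ k / (k.factorial : ℝ) := h1
    _ = (N:ℝ) ^ k * (1 / (k.factorial : ℝ)) := by ring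
    _ ≤ (N:ℝ) ^ k * (Real.exp 1 / k) ^ k := by gcongr
    _ = (N * Real.exp 1 / k) ^ k := by
        rw [← mul_pow]
        congr 1
        ring

lemma alg_pow (a b c r W : ℝ) (k : ℕ) :
    a ^ k * b ^ k * (c ^ k * (W * r ^ k)) = W * (a * b * c * r) ^ k := by
  rw [mul_pow, mul_pow, mul_pow]
  ring

/-- number of sorted systems of `k` pairs -/
lemma card_sorted (M k : ℕ) :
    #{ε : Fin k × Bool → Fin M | StrictMono fun i => ε (i, false)} ≤ M.choose k * M ^ k := by
  classical
  have h1 : #{ε : Fin k × Bool → Fin M | StrictMono fun i => ε (i, false)} ≤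
      #((Finset.powersetCard k (univ : Finset (Fin M))) ×ˢ (univ : Finset (Fin k → Fin M))) := by
    apply Finset.card_le_card_of_injOn
      (fun ε => (Finset.univ.image (fun i => ε (i, false)), fun i => ε (i, true)))
    · intro ε hε
      have hε2 : StrictMono fun i => ε (i, false) := (Finset.mem_filter.mp hε).2
      rw [Finset.mem_coe, Finset.mem_product, Finset.mem_powersetCard]
      refine ⟨⟨Finset.subset_univ _, ?_⟩, Finset.mem_univ _⟩
      show #(Finset.univ.image (fun i => ε (i, false))) = k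
      rw [Finset.card_image_of_injective _ hε2.injective, Finset.card_univ, Fintype.card_fin]
    · intro ε hε ε' hε' h
      have hε2 : StrictMono fun i => ε (i, false) := (Finset.mem_filter.mp hε).2
      have hε3 : StrictMono fun i => ε' (i, false) := (Finset.mem_filter.mp hε').2
      rw [Prod.mk.injEq] at h
      have h3 : Set.range (fun i => ε (i, false)) = Set.range (fun i => ε' (i, false)) := by
        have := congrArg (fun s : Finset (Fin M) => (s : Set (Fin M))) h.1
        simpa using this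
      have h4 : (fun i => ε (i, false)) = fun i => ε' (i, false) :=
        (StrictMono.range_inj hε2 hε3).mp h3
      funext ⟨i, t⟩
      cases t
      · exact congrFun h4 i
      · exact congrFun h.2 i
  refine h1.trans (le_of_eq ?_)
  rw [Finset.card_product, Finset.card_powersetCard, Finset.card_univ, Finset.card_univ,
    Fintype.card_fun, Fintype.card_fin, Fintype.card_fin]

/-- **Existence of a good point system.** -/
theorem exists_good2 {n L p : ℕ} [Fact p.Prime] (hL : 0 < L) (hN : n ≤ L * p ^ 2)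
    (h : ∀ k : ℕ, 1 ≤ k → k ≤ n → 4 * Real.exp 1 ^ 2 * (n:ℝ) ^ 2 * (L * p ^ 2) / (k:ℝ) ^ 2 *
      ((k:ℝ) / (L * p ^ 2) + 1 / p) ^ L ≤ 1 / 2) :
    ∃ φ : Fin (2 * n) → Pt L p, ∀ e : Fin n × Bool ≃ Fin (2 * n),
      ∃ f : Fin n → Ln L p, Function.Injective f ∧
        ∀ s, onLine (φ (e (s, false))) (f s) ∧ onLine (φ (e (s, true))) (f s) := by
  classical
  by_contra hcon
  push Not at hcon
  have hp0 : (0:ℝ) < p := by exact_mod_cast (Fact.out : p.Prime).pos
  have hL0 : (0:ℝ) < L := by exact_mod_cast hL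
  obtain ⟨Bad, hBad⟩ : ∃ Bad : (k : ℕ) → (Fin k × Bool → Fin (2 * n)) → Finset (Ln L p) →
      Finset (Fin (2 * n) → Pt L p), Bad = fun k ε T =>
    Finset.univ.filter (fun φ : Fin (2 * n) → Pt L p => ∀ i : Fin k, ∀ b : Ln L p,
      onLine (φ (ε (i, false))) b → onLine (φ (ε (i, true))) b → b ∈ T) := ⟨_, rfl⟩
  obtain ⟨Srt, hSrt⟩ : ∃ Srt : (k : ℕ) → Finset (Fin k × Bool → Fin (2 * n)), Srt = fun k =>
    Finset.univ.filter (fun ε : Fin k × Bool → Fin (2 * n) =>
      (StrictMono fun i : Fin k => ε (i, false)) ∧ Function.Injective ε) := ⟨_, rfl⟩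
  have hcover : (univ : Finset (Fin (2 * n) → Pt L p)) ⊆
      (Finset.Icc 1 n).biUnion fun k => (Srt k).biUnion fun ε =>
        (Finset.powersetCard k (univ : Finset (Ln L p))).biUnion fun T => Bad k ε T := by
    intro φ _
    obtain ⟨e, he⟩ := hcon φ
    obtain ⟨t, ht⟩ : ∃ t : Fin n → Finset (Ln L p), t = fun s => Finset.univ.filter
      (fun b => onLine (φ (e (s, false))) b ∧ onLine (φ (e (s, true))) b) := ⟨_, rfl⟩
    have hnot : ¬ ∀ S : Finset (Fin n), #S ≤ #(S.biUnion t) := by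
      rw [Finset.all_card_le_biUnion_card_iff_exists_injective]
      rintro ⟨f, hf, hf2⟩
      obtain ⟨s, hs⟩ := he f hf
      have := hf2 s
      rw [ht] at this
      simp only [Finset.mem_filter, Finset.mem_univ, true_and] at this
      exact hs this.1 this.2
    push Not at hnot
    obtain ⟨S, hS⟩ := hnot
    have hS0 : 1 ≤ #S := by omega
    have hSn : #S ≤ n := by
      have := Finset.card_le_univ S
      simpa using this
    obtain ⟨T, hT, hTc⟩ := Finset.exists_superset_card_eq (s := S.biUnion t) hS.le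
      (by
        rw [Fintype.card_prod, Fintype.card_prod, Fintype.card_fin, ZMod.card, ← sq]
        omega)
    -- the sorted enumeration
    obtain ⟨R, hR⟩ : ∃ R : Finset (Fin (2 * n)), R = S.image (fun s => e (s, false)) := ⟨_, rfl⟩
    have hinj0 : Function.Injective (fun s : Fin n => e (s, false)) := by
      intro s s' hss
      have := e.injective hss
      exact (Prod.mk.injEq _ _ _ _ ▸ this).1
    have hRc : #R = #S := by
      rw [hR]
      exact Finset.card_image_of_injective _ hinj0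
    have hchoose : ∀ i : Fin #S, ∃ s ∈ S, e (s, false) = R.orderEmbOfFin hRc i := by
      intro i
      have h1 := (Finset.ext_iff.mp hR _).mp (R.orderEmbOfFin_mem hRc i)
      rw [Finset.mem_image] at h1
      obtain ⟨s, hs, hs2⟩ := h1
      exact ⟨s, hs, hs2⟩
    choose g hgS hge using hchoose
    have hginj : Function.Injective g := by
      intro i i' hii
      have h1 := hge i
      rw [hii, hge i'] at h1
      exact ((R.orderEmbOfFin hRc).injective h1).symm
    simp only [Finset.mem_biUnion, Finset.mem_Icc]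
    refine ⟨#S, ⟨hS0, hSn⟩, fun q => e (g q.1, q.2), ?_, T, ?_, ?_⟩
    · rw [hSrt]
      simp only [Finset.mem_filter, Finset.mem_univ, true_and]
      constructor
      · intro i i' hii
        show e (g i, false) < e (g i', false)
        rw [hge, hge]
        exact (R.orderEmbOfFin hRc).strictMono hii
      · intro q q' hqq
        have h1 := e.injective hqq
        simp only [Prod.mk.injEq] at h1
        exact Prod.ext (hginj h1.1) h1.2
    · rw [Finset.mem_powersetCard]
      exact ⟨Finset.subset_univ _, hTc⟩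
    · rw [hBad]
      simp only [Finset.mem_filter, Finset.mem_univ, true_and]
      intro i b hb1 hb2
      apply hT
      rw [Finset.mem_biUnion]
      refine ⟨g i, hgS i, ?_⟩
      rw [ht]
      simp only [Finset.mem_filter, Finset.mem_univ, true_and]
      exact ⟨hb1, hb2⟩
  have hc1 := Finset.card_le_card hcover
  have hc2 : #((Finset.Icc 1 n).biUnion fun k => (Srt k).biUnion fun ε =>
        (Finset.powersetCard k (univ : Finset (Ln L p))).biUnion fun T => Bad k ε T) ≤
      ∑ k ∈ Finset.Icc 1 n, ∑ ε ∈ Srt k,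
        ∑ T ∈ Finset.powersetCard k (univ : Finset (Ln L p)), #(Bad k ε T) :=
    Finset.card_biUnion_le.trans (Finset.sum_le_sum fun k _ =>
      Finset.card_biUnion_le.trans (Finset.sum_le_sum fun ε _ => Finset.card_biUnion_le))
  have hc3 : (#(univ : Finset (Fin (2 * n) → Pt L p)) : ℝ) = ((p:ℝ) ^ (2 * L)) ^ (2 * n) := by
    rw [Finset.card_univ, Fintype.card_fun, Fintype.card_fun, Fintype.card_prod, ZMod.card,
      Fintype.card_fin, Fintype.card_fin]
    push_cast
    rw [← sq, ← pow_mul, ← pow_mul, ← pow_mul]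
    congr 1
    ring
  obtain ⟨W, hW⟩ : ∃ W : ℝ, W = ((p : ℝ) ^ (2 * L)) ^ (2 * n) := ⟨_, rfl⟩
  have hW0 : 0 < W := by rw [hW]; positivity
  have hterm : ∀ k ∈ Finset.Icc 1 n, (∑ ε ∈ Srt k,
      ∑ T ∈ Finset.powersetCard k (univ : Finset (Ln L p)), (#(Bad k ε T) : ℝ)) ≤
      W * (1 / 2) ^ k := by
    intro k hk
    rw [Finset.mem_Icc] at hk
    have hk0 : (0:ℝ) < k := by exact_mod_cast (by omega : 0 < k)
    obtain ⟨r, hr⟩ : ∃ r : ℝ, r = ((k:ℝ) / (L * p ^ 2) + 1 / p) ^ L := ⟨_, rfl⟩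
    have hr0 : 0 ≤ r := by rw [hr]; positivity
    have hbad : ∀ ε ∈ Srt k, ∀ T ∈ Finset.powersetCard k (univ : Finset (Ln L p)),
        (#(Bad k ε T) : ℝ) ≤ W * r ^ k := by
      intro ε hε T hT
      rw [Finset.mem_powersetCard] at hT
      rw [hSrt] at hε
      simp only [Finset.mem_filter, Finset.mem_univ, true_and] at hε
      have h1 := card_bad2 (p := p) hL hk.2 ε hε.2 T
      rw [hT.2, ← hW, ← hr, Nat.card_eq_fintype_card, Fintype.card_subtype] at h1
      rw [hBad]
      exact h1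
    have hSc : (#(Srt k) : ℝ) ≤ ((2 * n : ℕ) * Real.exp 1 / k) ^ k * (2 * n) ^ k := by
      have h1 : #(Srt k) ≤ (2 * n).choose k * (2 * n) ^ k := by
        refine le_trans ?_ (card_sorted (2 * n) k)
        apply Finset.card_le_card
        intro ε hε
        rw [hSrt] at hε
        simp only [Finset.mem_filter, Finset.mem_univ, true_and] at hε ⊢
        exact hε.1
      have h2 := choose_le_exp (2 * n) k (by omega)
      calc (#(Srt k) : ℝ) ≤ (((2 * n).choose k * (2 * n) ^ k : ℕ) : ℝ) := by exact_mod_cast h1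
        _ = (((2 * n).choose k : ℕ) : ℝ) * (2 * n) ^ k := by push_cast; ring
        _ ≤ _ := by gcongr
    have hPc : (#(Finset.powersetCard k (univ : Finset (Ln L p))) : ℝ) ≤
        ((L * p ^ 2 : ℕ) * Real.exp 1 / k) ^ k := by
      rw [Finset.card_powersetCard, Finset.card_univ, Fintype.card_prod, Fintype.card_prod,
        Fintype.card_fin, ZMod.card, ← sq]
      exact choose_le_exp _ k (by omega)
    calc (∑ ε ∈ Srt k, ∑ T ∈ Finset.powersetCard k (univ : Finset (Ln L p)),
          (#(Bad k ε T) : ℝ))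
        ≤ ∑ ε ∈ Srt k, ∑ T ∈ Finset.powersetCard k (univ : Finset (Ln L p)), W * r ^ k :=
          Finset.sum_le_sum fun ε hε => Finset.sum_le_sum fun T hT => hbad ε hε T hT
      _ = #(Srt k) * (#(Finset.powersetCard k (univ : Finset (Ln L p))) * (W * r ^ k)) := by
          rw [Finset.sum_const, Finset.sum_const, nsmul_eq_mul, nsmul_eq_mul]
      _ ≤ (((2 * n : ℕ) * Real.exp 1 / k) ^ k * (2 * n) ^ k) *
          (((L * p ^ 2 : ℕ) * Real.exp 1 / k) ^ k * (W * r ^ k)) := by gcongr
      _ = W * (4 * Real.exp 1 ^ 2 * (n:ℝ) ^ 2 * (L * p ^ 2) / (k:ℝ) ^ 2 * r) ^ k := by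
          rw [alg_pow]
          congr 2
          push_cast
          field_simp
          ring
      _ ≤ W * (1 / 2) ^ k := by
          have := h k hk.1 hk.2
          rw [← hr] at this
          gcongr
  have hgeo : ∑ k ∈ Finset.Icc 1 n, ((1:ℝ)/2) ^ k < 1 := by
    have : ∀ m : ℕ, ∑ k ∈ Finset.Icc 1 m, ((1:ℝ)/2) ^ k = 1 - (1/2) ^ m := by
      intro m
      induction m with
      | zero => simp
      | succ m ih =>
        rw [Finset.sum_Icc_succ_top (by omega), ih]
        ring
    rw [this]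
    have : (0:ℝ) < (1/2) ^ n := by positivity
    linarith
  have hfinal : W ≤ W * ∑ k ∈ Finset.Icc 1 n, ((1:ℝ)/2) ^ k := by
    rw [Finset.mul_sum]
    calc W = (#(univ : Finset (Fin (2 * n) → Pt L p)) : ℝ) := by rw [hc3, hW]
      _ ≤ ∑ k ∈ Finset.Icc 1 n, ∑ ε ∈ Srt k,
        ∑ T ∈ Finset.powersetCard k (univ : Finset (Ln L p)), (#(Bad k ε T) : ℝ) := by
          exact_mod_cast hc1.trans hc2
      _ ≤ ∑ k ∈ Finset.Icc 1 n, W * (1 / 2) ^ k := Finset.sum_le_sum hterm
  nlinarith

/-- the resulting bound -/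
theorem lam_le_mul {n L p : ℕ} [Fact p.Prime] (hL : 0 < L) (hN : n ≤ L * p ^ 2)
    (h : ∀ k : ℕ, 1 ≤ k → k ≤ n → 4 * Real.exp 1 ^ 2 * (n:ℝ) ^ 2 * (L * p ^ 2) / (k:ℝ) ^ 2 *
      ((k:ℝ) / (L * p ^ 2) + 1 / p) ^ L ≤ 1 / 2) : lam n ≤ L * p := by
  classical
  obtain ⟨φ, hφ⟩ := exists_good2 hL hN h
  obtain ⟨eB⟩ : Nonempty (Ln L p ≃ Fin (L * p ^ 2)) := by
    refine ⟨Fintype.equivOfCardEq ?_⟩
    rw [Fintype.card_prod, Fintype.card_prod, Fintype.card_fin, ZMod.card, Fintype.card_fin, sq]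
  obtain ⟨G, hGd⟩ : ∃ G : Fin (2 * n) → Fin (L * p ^ 2) → Prop,
    G = fun a b => onLine (φ a) (eB.symm b) := ⟨_, rfl⟩
  have hG : PairingProperty n (L * p ^ 2) G := by
    intro e
    obtain ⟨f, hf, hf2⟩ := hφ e
    refine ⟨fun s => eB (f s), eB.injective.comp hf, fun s => ?_⟩
    simp only [hGd, Equiv.symm_apply_apply]
    exact hf2 s
  refine (lam_le hN).trans ((lam₂_le G hG).trans ?_)
  unfold maxDegA
  apply Finset.sup_le
  intro a _
  rw [Nat.card_eq_fintype_card]
  calc Fintype.card {b : Fin (L * p ^ 2) // G a b} ≤ Fintype.card (Fin L × ZMod p) := by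
        apply Fintype.card_le_of_injective
          (fun b : {b : Fin (L * p ^ 2) // G a b} =>
            ((eB.symm b.1).1, (eB.symm b.1).2.1))
        rintro ⟨b, hb⟩ ⟨b', hb'⟩ h
        apply Subtype.ext
        apply eB.symm.injective
        rw [hGd] at hb hb'
        unfold onLine at hb hb'
        simp only [Prod.mk.injEq] at h
        apply Prod.ext
        · exact h.1
        · apply Prod.ext
          · exact h.2
          · rw [← hb, ← hb', h.1, h.2]
    _ = L * p := by rw [Fintype.card_prod, Fintype.card_fin, ZMod.card]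

end Pool.Agent.Lib_helper37.VL
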