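import Mathlib
import Pool.Agent.Lib_helper37.VL.UP
import Pool.Agent.Lib_helper90.PNT.WienerIkehara

/-!
# The upper bound with the constant `√e`
-/

open Finset Filter Topology Pool.Agent.Lib_helper23.VanLint

namespace Pool.Agent.Lib_helper37.VL

lemma tendsto_theta_div : Tendsto (fun x : ℝ => Chebyshev.theta x / x) atTop (𝓝 1) := by
  obtain ⟨C, hC⟩ := Chebyshev.psi_sub_theta_le_mul_sqrt
  have h1 : Tendsto (fun x : ℝ => (Chebyshev.psi x - Chebyshev.theta x) / x) atTop (𝓝 0) := by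
    have h2 : Tendsto (fun x : ℝ => C * (Real.sqrt x)⁻¹) atTop (𝓝 0) := by
      have h3 : Tendsto (fun x : ℝ => (Real.sqrt x)⁻¹) atTop (𝓝 0) :=
        tendsto_inv_atTop_zero.comp Real.tendsto_sqrt_atTop
      simpa using h3.const_mul C
    refine squeeze_zero' ?_ ?_ h2
    · filter_upwards [eventually_gt_atTop 0] with x hx
      have := Chebyshev.theta_le_psi x
      apply div_nonneg _ hx.le
      linarith
    · filter_upwards [eventually_gt_atTop 0] with x hx
      rw [div_le_iff₀ hx]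
      refine (hC x).trans (le_of_eq ?_)
      have h4 : Real.sqrt x ≠ 0 := (Real.sqrt_pos.mpr hx).ne'
      have h5 : (Real.sqrt x)⁻¹ * x = Real.sqrt x := by
        nth_rewrite 2 [← Real.mul_self_sqrt hx.le]
        rw [← mul_assoc, inv_mul_cancel₀ h4, one_mul]
      rw [mul_assoc, h5]
  have h6 := Pool.Agent.Lib_helper90.PNT.tendsto_psi_div.sub h1
  rw [sub_zero] at h6
  refine h6.congr fun x => ?_
  rw [← sub_div]
  congr 1
  ring

/-- primes in short intervals, from the prime number theorem -/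
lemma prime_short {η : ℝ} (hη : 0 < η) (hη1 : η ≤ 1) :
    ∀ᶠ x : ℝ in atTop, ∃ p : ℕ, p.Prime ∧ x < p ∧ (p:ℝ) ≤ (1 + η) * x := by
  have h1 := tendsto_theta_div
  have h2 : Tendsto (fun x : ℝ => (1 + η) * x) atTop atTop :=
    tendsto_id.const_mul_atTop (by linarith)
  have h3 := h1.comp h2
  filter_upwards [h1.eventually_lt_const (u := 1 + η / 4) (by linarith),
    h3.eventually_const_lt (u := 1 - η / 4) (by linarith), eventually_gt_atTop 0]
    with x hx1 hx2 hx0
  by_contra hno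
  push Not at hno
  have hx2' : 1 - η / 4 < Chebyshev.theta ((1 + η) * x) / ((1 + η) * x) := hx2
  rw [lt_div_iff₀ (by positivity)] at hx2'
  rw [div_lt_iff₀ hx0] at hx1
  have h4 : Chebyshev.theta ((1 + η) * x) ≤ Chebyshev.theta x := by
    unfold Chebyshev.theta
    apply Finset.sum_le_sum_of_subset_of_nonneg
    · intro p hp
      rw [Finset.mem_filter, Finset.mem_Ioc] at hp ⊢
      refine ⟨⟨hp.1.1, ?_⟩, hp.2⟩
      by_contra hlt
      push Not at hlt
      have e1 : x < p := Nat.lt_of_floor_lt hlt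
      have e2 : (p:ℝ) ≤ (1 + η) * x := by
        refine le_trans ?_ (Nat.floor_le (by positivity))
        exact_mod_cast hp.1.2
      exact absurd e2 (not_le.mpr (hno p hp.2 e1))
    · intro p hp _
      rw [Finset.mem_filter, Finset.mem_Ioc] at hp
      apply Real.log_nonneg
      exact_mod_cast hp.1.1
  have h5 : (1 + η / 4) * x ≤ (1 - η / 4) * ((1 + η) * x) := by
    rw [← mul_assoc]
    apply mul_le_mul_of_nonneg_right _ hx0.le
    nlinarith
  linarith

lemma exp_num8 : 64 * Real.exp (-8) ≤ 1 / 2 := by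
  have h1 : (128:ℝ) ≤ Real.exp 8 := by
    have h2 : Real.exp 8 = Real.exp 1 ^ 8 := by
      rw [← Real.exp_nat_mul]
      norm_num
    rw [h2]
    calc (128:ℝ) ≤ 2 ^ 8 := by norm_num
      _ ≤ Real.exp 1 ^ 8 := by
        gcongr
        linarith [Real.exp_one_gt_d9]
  rw [Real.exp_neg, ← div_eq_mul_inv, div_le_iff₀ (by positivity)]
  linarith

/-- the union bound terms -/
lemma upper_terms {n L p : ℕ} {η y : ℝ} (hn : 0 < n) (hp : 0 < p) (hη0 : 0 < η) (hη1 : η ≤ 1)
    (hy : y = Real.log n) (hy2 : 2000 ≤ y) (hηy : 12 ≤ η * y)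
    (hL1 : (1 + η) * y ≤ L) (hL2 : (L:ℝ) ≤ (1 + 2 * η) * y)
    (hN1 : Real.exp 1 * n ≤ L * p ^ 2) (hN2 : L * p ^ 2 ≤ 4 * (Real.exp 1 * n)) (k : ℕ)
    (hk1 : 1 ≤ k) (hkn : k ≤ n) :
    4 * Real.exp 1 ^ 2 * (n:ℝ) ^ 2 * (L * p ^ 2) / (k:ℝ) ^ 2 *
      ((k:ℝ) / (L * p ^ 2) + 1 / p) ^ L ≤ 1 / 2 := by
  have hn0 : (0:ℝ) < n := by exact_mod_cast hn
  have hp0 : (0:ℝ) < p := by exact_mod_cast hp
  have hk0 : (0:ℝ) < k := by exact_mod_cast hk1
  have hk1' : (1:ℝ) ≤ k := by exact_mod_cast hk1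
  have hkn' : (k:ℝ) ≤ n := by exact_mod_cast hkn
  have hny : (n:ℝ) = Real.exp y := by rw [hy, Real.exp_log hn0]
  have hy0 : 0 < y := by linarith
  have he1 := Real.exp_one_gt_d9
  have he2 := Real.exp_one_lt_d9
  have he0 : 0 < Real.exp 1 := Real.exp_pos _
  have hLy : y ≤ L := by
    have := mul_pos hη0 hy0
    linarith
  have hL3 : (L:ℝ) ≤ 3 * y := by
    have : η * y ≤ 1 * y := by gcongr
    linarith
  have hL0 : (0:ℝ) < L := by linarith
  have hn4 : y ^ 4 / 24 ≤ n := by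
    rw [hny]
    have := Real.pow_div_factorial_le_exp y hy0.le 4
    have e : ((Nat.factorial 4 : ℕ) : ℝ) = 24 := by norm_num [Nat.factorial]
    rwa [e] at this
  obtain ⟨N, hN⟩ : ∃ N : ℝ, N = L * p ^ 2 := ⟨_, rfl⟩
  rw [← hN] at hN1 hN2 ⊢
  have hN0 : 0 < N := lt_of_lt_of_le (by positivity) hN1
  -- `e L ≤ p`
  have hpL : Real.exp 1 * L ≤ p := by
    have h1 : (Real.exp 1 * L) ^ 2 ≤ (p:ℝ) ^ 2 := by
      have h2 : Real.exp 1 ^ 2 * L ^ 2 * L ≤ p ^ 2 * L := by
        calc Real.exp 1 ^ 2 * L ^ 2 * L = Real.exp 1 * (Real.exp 1 * L ^ 3) := by ring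
          _ ≤ Real.exp 1 * n := by
            gcongr
            calc Real.exp 1 * (L:ℝ) ^ 3 ≤ 2.7182818286 * (3 * y) ^ 3 := by gcongr
              _ = (2.7182818286 * 27 * 24 * y ^ 3) / 24 := by ring
              _ ≤ y ^ 4 / 24 := by
                apply div_le_div_of_nonneg_right _ (by norm_num)
                calc 2.7182818286 * 27 * 24 * y ^ 3 ≤ 2000 * y ^ 3 := by
                      gcongr
                      norm_num
                  _ ≤ y * y ^ 3 := by gcongr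
                  _ = y ^ 4 := by ring
              _ ≤ n := hn4
          _ ≤ N := hN1
          _ = p ^ 2 * L := by rw [hN]; ring
      rw [mul_pow]
      exact le_of_mul_le_mul_right h2 hL0
    exact le_of_sq_le_sq h1 hp0.le
  have hp110 : 110 ≤ (p:ℝ) := by
    calc (110:ℝ) ≤ 2 * 2000 := by norm_num
      _ ≤ Real.exp 1 * L := by
        gcongr
        · linarith
        · linarith
      _ ≤ p := hpL
  have hexpL : n * Real.exp (-L) ≤ Real.exp (-12) := by
    rw [hny, ← Real.exp_add]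
    apply Real.exp_le_exp.mpr
    linarith
  have hL2' : 2 ≤ L := by
    have : (2:ℝ) ≤ L := by linarith
    exact_mod_cast this
  have hnum := exp_num8
  rcases le_or_gt ((k:ℝ) / N) (1 / p) with hA | hB
  · -- small `k`
    have h1 : (k:ℝ) / N + 1 / p ≤ Real.exp (-4) := by
      have h2 : (k:ℝ) / N + 1 / p ≤ 2 / p := by
        have : (2:ℝ) / p = 1 / p + 1 / p := by ring
        linarith
      have h3 : Real.exp 4 ≤ 55 := by
        have h4 : Real.exp 4 = Real.exp 1 ^ 4 := by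
          rw [← Real.exp_nat_mul]
          norm_num
        rw [h4]
        calc Real.exp 1 ^ 4 ≤ 2.7182818286 ^ 4 := by gcongr
          _ ≤ 55 := by norm_num
      refine h2.trans ?_
      rw [Real.exp_neg, div_le_iff₀ hp0, inv_mul_eq_div, le_div_iff₀ (Real.exp_pos _)]
      linarith
    have h5 : ((k:ℝ) / N + 1 / p) ^ L ≤ Real.exp (-(4 * y)) := by
      calc ((k:ℝ) / N + 1 / p) ^ L ≤ Real.exp (-4) ^ L := by gcongr
        _ = Real.exp (-(4 * L)) := by
          rw [← Real.exp_nat_mul]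
          congr 1
          ring
        _ ≤ Real.exp (-(4 * y)) := by
          apply Real.exp_le_exp.mpr
          linarith
    have h6 : Real.exp (-(4 * y)) = 1 / (n:ℝ) ^ 4 := by
      rw [Real.exp_neg, hny, one_div, ← Real.exp_nat_mul]
      norm_num
    rw [h6] at h5
    have hn1 : (1:ℝ) ≤ (k:ℝ) ^ 2 := one_le_pow₀ hk1'
    calc 4 * Real.exp 1 ^ 2 * (n:ℝ) ^ 2 * N / (k:ℝ) ^ 2 * ((k:ℝ) / N + 1 / p) ^ L
        ≤ 4 * Real.exp 1 ^ 2 * (n:ℝ) ^ 2 * (4 * (Real.exp 1 * n)) / 1 * (1 / (n:ℝ) ^ 4) := by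
          gcongr
      _ = 16 * Real.exp 1 ^ 3 / n := by
          field_simp
          ring
      _ ≤ 1 / 2 := by
          rw [div_le_iff₀ hn0]
          have h7 : Real.exp 1 ^ 3 ≤ 21 := by
            calc Real.exp 1 ^ 3 ≤ 2.7182818286 ^ 3 := by gcongr
              _ ≤ 21 := by norm_num
          have h8 : (1000:ℝ) ≤ n := by
            refine le_trans ?_ hn4
            calc (1000:ℝ) ≤ 2000 ^ 4 / 24 := by norm_num
              _ ≤ y ^ 4 / 24 := by gcongr
          linarith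
  · rcases le_or_gt (2 * (k:ℝ)) n with hC | hD
    · -- `k ≤ n / 2`
      have h1 : (k:ℝ) / N + 1 / p ≤ Real.exp (-1) * (2 * k / n) := by
        have h2 : (k:ℝ) / N ≤ k / (Real.exp 1 * n) := by gcongr
        have h3 : Real.exp (-1) * (2 * k / n) = 2 * (k / (Real.exp 1 * n)) := by
          rw [Real.exp_neg]
          field_simp
        rw [h3]
        linarith
      have h4 : ((k:ℝ) / N + 1 / p) ^ L ≤ Real.exp (-L) * (2 * k / n) ^ 2 := by
        calc ((k:ℝ) / N + 1 / p) ^ L ≤ (Real.exp (-1) * (2 * k / n)) ^ L := by gcongr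
          _ = Real.exp (-L) * (2 * k / n) ^ L := by
            rw [mul_pow, ← Real.exp_nat_mul]
            congr 2
            ring
          _ ≤ Real.exp (-L) * (2 * k / n) ^ 2 := by
            apply mul_le_mul_of_nonneg_left _ (Real.exp_pos _).le
            apply pow_le_pow_of_le_one (by positivity) _ hL2'
            rw [div_le_one hn0]
            exact hC
      calc 4 * Real.exp 1 ^ 2 * (n:ℝ) ^ 2 * N / (k:ℝ) ^ 2 * ((k:ℝ) / N + 1 / p) ^ L
          ≤ 4 * Real.exp 1 ^ 2 * (n:ℝ) ^ 2 * (4 * (Real.exp 1 * n)) / (k:ℝ) ^ 2 *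
            (Real.exp (-L) * (2 * k / n) ^ 2) := by gcongr
        _ = 64 * Real.exp 1 ^ 3 * (n * Real.exp (-L)) := by
            field_simp
            ring
        _ ≤ 64 * Real.exp 1 ^ 3 * Real.exp (-12) := by gcongr
        _ = 64 * Real.exp (-9) := by
            rw [← Real.exp_nat_mul, mul_assoc, ← Real.exp_add]
            norm_num
        _ ≤ 64 * Real.exp (-8) := by
            gcongr
            norm_num
        _ ≤ 1 / 2 := hnum
    · -- `k > n / 2`
      have h1 : (k:ℝ) / N + 1 / p ≤ Real.exp (-1) * Real.exp (Real.exp 1 / p) := by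
        have h2 : (k:ℝ) / N ≤ n / (Real.exp 1 * n) := by gcongr
        have h3 : (n:ℝ) / (Real.exp 1 * n) = Real.exp (-1) := by
          rw [Real.exp_neg]
          field_simp
        have h4 := Real.add_one_le_exp (Real.exp 1 / p)
        have h5 : (1:ℝ) / p = Real.exp (-1) * (Real.exp 1 / p) := by
          rw [Real.exp_neg]
          field_simp
        calc (k:ℝ) / N + 1 / p ≤ Real.exp (-1) + Real.exp (-1) * (Real.exp 1 / p) := by
              rw [← h5, ← h3]
              gcongr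
          _ = Real.exp (-1) * (Real.exp 1 / p + 1) := by ring
          _ ≤ _ := by gcongr
      have h6 : ((k:ℝ) / N + 1 / p) ^ L ≤ Real.exp (-L) * Real.exp 1 := by
        calc ((k:ℝ) / N + 1 / p) ^ L ≤ (Real.exp (-1) * Real.exp (Real.exp 1 / p)) ^ L := by
              gcongr
          _ = Real.exp (-L) * Real.exp (Real.exp 1 * L / p) := by
            rw [mul_pow, ← Real.exp_nat_mul, ← Real.exp_nat_mul]
            congr 2
            · ring
            · ring
          _ ≤ Real.exp (-L) * Real.exp 1 := by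
            apply mul_le_mul_of_nonneg_left _ (Real.exp_pos _).le
            apply Real.exp_le_exp.mpr
            rw [div_le_one hp0]
            exact hpL
      have hkk : (n:ℝ) ^ 2 / 4 ≤ (k:ℝ) ^ 2 := by
        have : (n:ℝ) ^ 2 ≤ (2 * k) ^ 2 := pow_le_pow_left₀ hn0.le hD.le 2
        linarith [mul_pow (2:ℝ) k 2]
      calc 4 * Real.exp 1 ^ 2 * (n:ℝ) ^ 2 * N / (k:ℝ) ^ 2 * ((k:ℝ) / N + 1 / p) ^ L
          ≤ 4 * Real.exp 1 ^ 2 * (n:ℝ) ^ 2 * (4 * (Real.exp 1 * n)) / ((n:ℝ) ^ 2 / 4) *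
            (Real.exp (-L) * Real.exp 1) := by gcongr
        _ = 64 * Real.exp 1 ^ 4 * (n * Real.exp (-L)) := by
            field_simp
            ring
        _ ≤ 64 * Real.exp 1 ^ 4 * Real.exp (-12) := by gcongr
        _ = 64 * Real.exp (-8) := by
            rw [← Real.exp_nat_mul, mul_assoc, ← Real.exp_add]
            norm_num
        _ ≤ 1 / 2 := hnum

/-- **Upper bound for `λ(n)`**, with the constant `√e`. -/
theorem lam_upper (ε : ℝ) (hε : 0 < ε) : ∀ᶠ n : ℕ in atTop,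
    (lam n : ℝ) ≤ (Real.sqrt (Real.exp 1) + ε) * Real.sqrt (n * Real.log n) := by
  obtain ⟨η, hη⟩ : ∃ η : ℝ, η = min 1 (ε / 16) := ⟨_, rfl⟩
  have hη0 : 0 < η := by
    rw [hη]
    exact lt_min one_pos (by positivity)
  have hη1 : η ≤ 1 := by
    rw [hη]
    exact min_le_left _ _
  have hηε : 16 * η ≤ ε := by
    have : η ≤ ε / 16 := by
      rw [hη]
      exact min_le_right _ _
    linarith
  have he1 := Real.exp_one_gt_d9
  have he2 := Real.exp_one_lt_d9
  have he0 : 0 < Real.exp 1 := Real.exp_pos _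
  obtain ⟨x0, hx0⟩ := eventually_atTop.mp (prime_short hη0 hη1)
  have h2 : Tendsto (fun n : ℕ => Real.log (n:ℝ)) atTop atTop :=
    Real.tendsto_log_atTop.comp tendsto_natCast_atTop_atTop
  filter_upwards [eventually_gt_atTop 0, h2.eventually_ge_atTop 2000,
    h2.eventually_ge_atTop (12 / η), h2.eventually_ge_atTop (x0 ^ 2)] with n hn hy1 hy2 hy3
  obtain ⟨y, hy⟩ : ∃ y : ℝ, y = Real.log n := ⟨_, rfl⟩
  rw [← hy] at hy1 hy2 hy3 ⊢
  have hn0 : (0:ℝ) < n := by exact_mod_cast hn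
  have hy0 : 0 < y := by linarith
  have hny : (n:ℝ) = Real.exp y := by rw [hy, Real.exp_log hn0]
  have hηy : 12 ≤ η * y := by
    rw [div_le_iff₀ hη0] at hy2
    linarith
  obtain ⟨L, hL⟩ : ∃ L : ℕ, L = ⌈(1 + η) * y⌉₊ := ⟨_, rfl⟩
  have hL1 : (1 + η) * y ≤ L := by
    rw [hL]
    exact Nat.le_ceil _
  have hL2 : (L:ℝ) ≤ (1 + 2 * η) * y := by
    have : (L:ℝ) < (1 + η) * y + 1 := by
      rw [hL]
      exact Nat.ceil_lt_add_one (by positivity)
    linarith
  have hLy : y ≤ L := by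
    have := mul_pos hη0 hy0
    linarith
  have hL3 : (L:ℝ) ≤ 3 * y := by
    have : η * y ≤ 1 * y := by gcongr
    linarith
  have hL0 : (0:ℝ) < L := by linarith
  have hn4 : y ^ 4 / 24 ≤ n := by
    rw [hny]
    have := Real.pow_div_factorial_le_exp y hy0.le 4
    have e : ((Nat.factorial 4 : ℕ) : ℝ) = 24 := by norm_num [Nat.factorial]
    rwa [e] at this
  obtain ⟨x, hx⟩ : ∃ x : ℝ, x = Real.sqrt (Real.exp 1 * n / L) := ⟨_, rfl⟩
  have hxsq : x ^ 2 = Real.exp 1 * n / L := by rw [hx, Real.sq_sqrt (by positivity)]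
  have hxpos : 0 < x := by
    rw [hx]
    exact Real.sqrt_pos.mpr (by positivity)
  have hyx : y ≤ x ^ 2 := by
    rw [hxsq, le_div_iff₀ hL0]
    calc y * L ≤ y * (3 * y) := by gcongr
      _ = 72 * y ^ 2 / 24 := by ring
      _ ≤ y ^ 4 / 24 := by
        apply div_le_div_of_nonneg_right _ (by norm_num)
        have : 72 ≤ y ^ 2 := by nlinarith
        calc 72 * y ^ 2 ≤ y ^ 2 * y ^ 2 := by gcongr
          _ = y ^ 4 := by ring
      _ ≤ n := hn4
      _ = 1 * n := (one_mul _).symm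
      _ ≤ Real.exp 1 * n := by
        gcongr
        linarith
  have hxx0 : x0 ≤ x := by
    by_contra hlt
    push Not at hlt
    have : x ^ 2 < x0 ^ 2 := pow_lt_pow_left₀ hlt hxpos.le two_ne_zero
    linarith
  obtain ⟨p, hpp, hp1, hp2⟩ := hx0 x hxx0
  have : Fact p.Prime := ⟨hpp⟩
  have hp0 : (0:ℝ) < p := by linarith
  have hN1 : Real.exp 1 * n ≤ L * p ^ 2 := by
    have h3 : x ^ 2 ≤ (p:ℝ) ^ 2 := pow_le_pow_left₀ hxpos.le hp1.le 2
    rw [hxsq, div_le_iff₀ hL0] at h3
    linarith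
  have hN2 : L * (p:ℝ) ^ 2 ≤ 4 * (Real.exp 1 * n) := by
    have h3 : (p:ℝ) ^ 2 ≤ (2 * x) ^ 2 := by
      apply pow_le_pow_left₀ hp0.le
      refine hp2.trans ?_
      gcongr
      linarith
    rw [mul_pow, hxsq] at h3
    calc L * (p:ℝ) ^ 2 ≤ L * (2 ^ 2 * (Real.exp 1 * n / L)) := by gcongr
      _ = 4 * (Real.exp 1 * n) := by
        field_simp
        norm_num
  have hLn : 0 < L := by exact_mod_cast hL0
  have hNn : n ≤ L * p ^ 2 := by
    have : (n:ℝ) ≤ ((L * p ^ 2 : ℕ) : ℝ) := by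
      push_cast
      calc (n:ℝ) = 1 * n := (one_mul _).symm
        _ ≤ Real.exp 1 * n := by
          gcongr
          linarith
        _ ≤ _ := hN1
    exact_mod_cast this
  have hlam : lam n ≤ L * p := lam_le_mul hLn hNn (fun k hk1 hkn =>
    upper_terms hn hpp.pos hη0 hη1 hy hy1 hηy hL1 hL2 hN1 hN2 k hk1 hkn)
  have hlam' : (lam n : ℝ) ≤ L * p := by exact_mod_cast hlam
  -- size of `L p`
  have hLx : L * x = Real.sqrt (Real.exp 1 * n * L) := by
    rw [hx]
    nth_rewrite 1 [← Real.sqrt_sq hL0.le]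
    rw [← Real.sqrt_mul (by positivity)]
    congr 1
    field_simp
  have hfin : L * x ≤ (1 + 2 * η) * (Real.sqrt (Real.exp 1) * Real.sqrt (n * y)) := by
    rw [hLx, ← Real.sqrt_mul he0.le]
    have h3 : (1 + 2 * η) * Real.sqrt (Real.exp 1 * (n * y)) =
        Real.sqrt ((1 + 2 * η) ^ 2 * (Real.exp 1 * (n * y))) := by
      rw [Real.sqrt_mul (by positivity : (0:ℝ) ≤ (1 + 2 * η) ^ 2),
        Real.sqrt_sq (by positivity)]
    rw [h3]
    apply Real.sqrt_le_sqrt
    calc Real.exp 1 * n * L ≤ Real.exp 1 * n * ((1 + 2 * η) * y) := by gcongr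
      _ = (1 + 2 * η) * (Real.exp 1 * (n * y)) := by ring
      _ ≤ (1 + 2 * η) ^ 2 * (Real.exp 1 * (n * y)) := by
        gcongr
        nlinarith
  have hse : Real.sqrt (Real.exp 1) ≤ 2 := by
    rw [Real.sqrt_le_left (by norm_num)]
    linarith
  calc (lam n : ℝ) ≤ L * p := hlam'
    _ ≤ L * ((1 + η) * x) := by gcongr
    _ = (1 + η) * (L * x) := by ring
    _ ≤ (1 + η) * ((1 + 2 * η) * (Real.sqrt (Real.exp 1) * Real.sqrt (n * y))) := by gcongr
    _ = ((1 + η) * (1 + 2 * η) * Real.sqrt (Real.exp 1)) * Real.sqrt (n * y) := by ring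
    _ ≤ (Real.sqrt (Real.exp 1) + ε) * Real.sqrt (n * y) := by
      gcongr
      have h4 : (1 + η) * (1 + 2 * η) ≤ 1 + 8 * η := by nlinarith
      calc (1 + η) * (1 + 2 * η) * Real.sqrt (Real.exp 1)
          ≤ (1 + 8 * η) * Real.sqrt (Real.exp 1) := by gcongr
        _ = Real.sqrt (Real.exp 1) + 8 * η * Real.sqrt (Real.exp 1) := by ring
        _ ≤ Real.sqrt (Real.exp 1) + 8 * η * 2 := by gcongr
        _ ≤ Real.sqrt (Real.exp 1) + ε := by linarith

end Pool.Agent.Lib_helper37.VL
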